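import Pool.Agent.Work.MP_e487d8_al.Y.Abs.Sys

/-! MP_e487d8_al, abstract part: products, commuting pairs, `d`. -/

set_option autoImplicit false

namespace Pool.Agent.KLSAbs

variable {I S O : Type} [DecidableEq I] [CommRing O] [Algebra ℚ O] (D : Sys I S O)

namespace Sys

/-- `X ∘ Y` is simple -/
def Cm (X Y : S) : Prop := ∃ Z, D.b X * D.b Y = D.b Z

/-- `X` is real -/
def Rl (X : S) : Prop := ∃ Z, D.b X * D.b X = D.b Z

/-- twice the invariant `𝔡(C, X)` -/
def d (C X : S) : ℤ := D.Lam C X + D.Lam' C X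

theorem b_inj {X Y : S} (h : D.b X = D.b Y) : X = Y := D.b.injective h

theorem Cm.symm {D : Sys I S O} {X Y : S} (h : D.Cm X Y) : D.Cm Y X := by
  obtain ⟨Z, hZ⟩ := h
  exact ⟨Z, by rw [mul_comm]; exact hZ⟩

theorem repr_mul (X Y Z : S) : D.b.repr (D.b X * D.b Y) Z = (D.co X Y Z : ℚ) := by
  classical
  rw [D.b_mul, Finsupp.sum, map_sum, Finsupp.finsetSum_apply]
  simp only [map_smul, Module.Basis.repr_self, Finsupp.smul_apply, Finsupp.single_apply,
    smul_eq_mul, mul_ite, mul_one, mul_zero]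
  rw [Finset.sum_ite_eq' (D.co X Y).support Z fun W => ((D.co X Y W : ℕ) : ℚ)]
  by_cases h : Z ∈ (D.co X Y).support
  · rw [if_pos h]
  · rw [if_neg h]
    rw [Finsupp.notMem_support_iff] at h
    rw [h]; simp

theorem co_of_mul {X Y Z : S} (h : D.b X * D.b Y = D.b Z) : D.co X Y Z = 1 := by
  classical
  have h1 := D.repr_mul X Y Z
  rw [h, Module.Basis.repr_self, Finsupp.single_eq_same] at h1
  exact_mod_cast h1.symm

theorem co_of_mul' {X Y Z W : S} (h : D.b X * D.b Y = D.b Z) (hW : D.co X Y W ≠ 0) : W = Z := by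
  classical
  by_contra hne
  have h1 := D.repr_mul X Y W
  rw [h, Module.Basis.repr_self, Finsupp.single_apply, if_neg (Ne.symm hne)] at h1
  exact hW (by exact_mod_cast h1.symm)

/-- span of the basis elements with the property `p` -/
def SS (p : S → Prop) : Submodule ℚ O := Submodule.span ℚ (D.b '' {X | p X})

theorem mem_SS {p : S → Prop} {g : O} : g ∈ D.SS p ↔ ∀ Y, D.b.repr g Y ≠ 0 → p Y := by
  rw [SS, Module.Basis.mem_span_image]
  constructor
  · intro h Y hY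
    exact h (by simpa using hY)
  · intro h Y hY
    exact h Y (by simpa using hY)

theorem b_mem_SS {p : S → Prop} {X : S} : D.b X ∈ D.SS p ↔ p X := by
  classical
  rw [mem_SS]
  constructor
  · intro h
    exact h X (by simp)
  · intro h Y hY
    rw [Module.Basis.repr_self, Finsupp.single_apply] at hY
    by_cases hXY : X = Y
    · rw [← hXY]; exact h
    · rw [if_neg hXY] at hY
      exact absurd rfl hY

theorem SS_mono {p q : S → Prop} (h : ∀ X, p X → q X) : D.SS p ≤ D.SS q :=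
  Submodule.span_mono (Set.image_mono h)

theorem SS_le {p : S → Prop} {P : Submodule ℚ O} (h : ∀ X, p X → D.b X ∈ P) : D.SS p ≤ P := by
  rw [SS, Submodule.span_le]
  rintro _ ⟨X, hX, rfl⟩
  exact h X hX

theorem mul_mem_SS {p : S → Prop} {X Y : S} (h : ∀ Z, D.co X Y Z ≠ 0 → p Z) :
    D.b X * D.b Y ∈ D.SS p := by
  rw [mem_SS]
  intro Z hZ
  rw [repr_mul] at hZ
  exact h Z (by exact_mod_cast hZ)

theorem SS_mul {p q r : S → Prop} (h : ∀ X Y Z, p X → q Y → D.co X Y Z ≠ 0 → r Z) {g k : O}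
    (hg : g ∈ D.SS p) (hk : k ∈ D.SS q) : g * k ∈ D.SS r := by
  have h1 : D.SS p * D.SS q ≤ D.SS r := by
    rw [SS, SS, Submodule.span_mul_span, Submodule.span_le]
    rintro _ ⟨_, ⟨X, hX, rfl⟩, _, ⟨Y, hY, rfl⟩, rfl⟩
    exact D.mul_mem_SS fun Z hZ => h X Y Z hX hY hZ
  exact h1 (Submodule.mul_mem_mul hg hk)

theorem mem_SS_top (g : O) : g ∈ D.SS fun _ => True := by
  rw [mem_SS]; intros; trivial

/-! ### commuting pairs -/

theorem cm_of_d {C X : S} (hC : D.Rl C) (h : D.d C X ≤ 0) : D.Cm C X := by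
  by_cases hne : D.nab C X = D.nab' C X
  · exact ⟨_, D.nab_simple C X hC hne⟩
  · exfalso
    obtain ⟨_, _, h3⟩ := D.nab_spec C X hC
    obtain ⟨h1', h2', _⟩ := D.nab'_spec C X hC
    have h4 := h3 (D.nab' C X) (by rw [h1']; exact one_ne_zero) (Ne.symm hne)
    have h5 := D.Lam_nonneg C (D.nab' C X) hC
    rw [d] at h
    rw [h2'] at h5
    omega

theorem cm_iff {C X : S} (hC : D.Rl C) : D.Cm C X ↔ D.d C X = 0 := by
  constructor
  · rintro ⟨Z, hZ⟩
    exact D.Lam_comm C X Z hC hZ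
  · intro h
    exact D.cm_of_d hC h.le

theorem d_nonneg {C : S} (hC : D.Rl C) (X : S) : 0 ≤ D.d C X := D.Lam_nonneg C X hC

theorem d_mul {C X Y Z : S} (hC : D.Rl C) (h : D.b X * D.b Y = D.b Z) :
    D.d C Z = D.d C X + D.d C Y := by
  rw [d, d, d, D.Lam_eq C X Y Z hC h, D.Lam'_eq C X Y Z hC h]; ring

theorem d_co {C X Y Z : S} (hC : D.Rl C) (h : D.co X Y Z ≠ 0) :
    D.d C Z ≤ D.d C X + D.d C Y := by
  have h1 := D.Lam_co C X Y Z hC h
  have h2 := D.Lam'_co C X Y Z hC h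
  rw [d, d, d]; omega

theorem d_self {C : S} (hC : D.Rl C) : D.d C C = 0 := by
  rw [d, D.Lam_self C hC, D.Lam'_self C hC]; rfl

theorem cm_co {C X Y Z : S} (hC : D.Rl C) (hX : D.Cm C X) (hY : D.Cm C Y)
    (h : D.co X Y Z ≠ 0) :
    D.Cm C Z ∧ D.Lam C Z = D.Lam C X + D.Lam C Y ∧ D.Lam' C Z = D.Lam' C X + D.Lam' C Y := by
  have h1 := D.Lam_co C X Y Z hC h
  have h2 := D.Lam'_co C X Y Z hC h
  have h3 := D.d_nonneg hC Z
  have h4 := (D.cm_iff hC).1 hX
  have h5 := (D.cm_iff hC).1 hY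
  rw [d] at h3 h4 h5
  refine ⟨D.cm_of_d hC (by rw [d]; omega), by omega, by omega⟩

theorem d_lt {C X Z : S} (hC : D.Rl C) (hX : ¬ D.Cm C X) (h : D.co C X Z ≠ 0) :
    D.d C Z < D.d C X := by
  obtain ⟨_, g2, g3⟩ := D.nab_spec C X hC
  obtain ⟨_, g2', g3'⟩ := D.nab'_spec C X hC
  have hne : D.nab C X ≠ D.nab' C X := fun hn => hX ⟨_, D.nab_simple C X hC hn⟩
  rw [d, d]
  by_cases h1 : Z = D.nab C X
  · have h2 : Z ≠ D.nab' C X := fun h2 => hne (h1 ▸ h2)
    have h3 := g3' Z h h2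
    rw [← h1] at g2
    omega
  · have h3 := g3 Z h h1
    by_cases h2 : Z = D.nab' C X
    · rw [← h2] at g2'
      omega
    · have h4 := g3' Z h h2
      omega

/-- a product of a real `C₁` and `C₂`, both commuting with `X` -/
theorem cm_mul {C₁ C₂ C X : S} (hC₁ : D.Rl C₁) (h : D.b C₁ * D.b C₂ = D.b C)
    (h1 : D.Cm C₁ X) (h2 : D.Cm C₂ X) : D.Cm C X := by
  obtain ⟨Z, hZ⟩ := h2
  have h3 : D.d C₁ Z = 0 := by
    rw [D.d_mul hC₁ hZ, (D.cm_iff hC₁).1 ⟨C, h⟩, (D.cm_iff hC₁).1 h1]; rfl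
  obtain ⟨W, hW⟩ := D.cm_of_d hC₁ h3.le
  exact ⟨W, by rw [← h, mul_assoc, hZ, hW]⟩

/-! ### eventually everything commutes with `C` -/

theorem b_mul_mem {C : S} (hC : D.Rl C) {g : O} (hg : g ∈ D.SS (D.Cm C)) :
    D.b C * g ∈ D.SS (D.Cm C) := by
  refine D.SS_mul (p := fun X => X = C) (q := D.Cm C) ?_ (D.b_mem_SS.2 rfl) hg
  rintro X Y Z rfl hY hZ
  exact (D.cm_co hC hC hY hZ).1

/-- elements which are moved by high powers of `C` to elements commuting with `C` -/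
def Ev (C : S) : Submodule ℚ O where
  carrier := {g | ∃ n₀, ∀ n ≥ n₀, D.b C ^ n * g ∈ D.SS (D.Cm C)}
  zero_mem' := ⟨0, fun n _ => by rw [mul_zero]; exact Submodule.zero_mem _⟩
  add_mem' := by
    rintro g h ⟨n, hn⟩ ⟨m, hm⟩
    refine ⟨max n m, fun k hk => ?_⟩
    rw [mul_add]
    exact Submodule.add_mem _ (hn k (le_trans (le_max_left _ _) hk))
      (hm k (le_trans (le_max_right _ _) hk))
  smul_mem' := by
    rintro c g ⟨n, hn⟩
    refine ⟨n, fun k hk => ?_⟩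
    rw [mul_smul_comm]
    exact Submodule.smul_mem _ _ (hn k hk)

theorem ev_aux {C : S} (hC : D.Rl C) (k : ℕ) : ∀ X, D.d C X ≤ k → D.b X ∈ D.Ev C := by
  induction k with
  | zero =>
    intro X hX
    have hcm : D.Cm C X := D.cm_of_d hC (by exact_mod_cast hX)
    refine ⟨0, fun n _ => ?_⟩
    induction n with
    | zero => rw [pow_zero, one_mul]; exact D.b_mem_SS.2 hcm
    | succ n ih => rw [pow_succ', mul_assoc]; exact D.b_mul_mem hC (ih (Nat.zero_le _))
  | succ k ih =>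
    intro X hX
    by_cases hcm : D.Cm C X
    · refine ⟨0, fun n _ => ?_⟩
      induction n with
      | zero => rw [pow_zero, one_mul]; exact D.b_mem_SS.2 hcm
      | succ n ih' => rw [pow_succ', mul_assoc]; exact D.b_mul_mem hC (ih' (Nat.zero_le _))
    · have h1 : D.b C * D.b X ∈ D.Ev C := by
        refine D.SS_le (p := fun Z => D.d C Z ≤ k) ih ?_
        refine D.mul_mem_SS fun Z hZ => ?_
        have h2 := D.d_lt hC hcm hZ
        push_cast at hX
        omega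
      obtain ⟨n₀, hn⟩ := h1
      refine ⟨n₀ + 1, fun n hn' => ?_⟩
      obtain ⟨m, rfl⟩ : ∃ m, n = m + 1 := ⟨n - 1, by omega⟩
      rw [pow_succ, mul_assoc]
      exact hn m (by omega)

theorem ev_cm {C : S} (hC : D.Rl C) (g : O) :
    ∃ n₀, ∀ n ≥ n₀, D.b C ^ n * g ∈ D.SS (D.Cm C) := by
  have h : D.SS (fun _ => True) ≤ D.Ev C := by
    refine D.SS_le fun X _ => D.ev_aux hC (D.d C X).toNat X ?_
    exact Int.self_le_toNat _
  exact h (D.mem_SS_top g)

end Sys

end Pool.Agent.KLSAbs
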