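import Pool.Agent.Work.MP_e487d8_al.Y.Abs.TR

/-! MP_e487d8_al, abstract part: the factor theorem (Theorem F). -/

set_option autoImplicit false

namespace Pool.Agent.KLSAbs

variable {I S O : Type} [DecidableEq I] [CommRing O] [Algebra ℚ O] {D : Sys I S O}

namespace Sys

/-- `M` is the maximum of `φ` on the support of `g` -/
def Top (D : Sys I S O) (φ : S → ℤ) (g : O) (M : ℤ) : Prop :=
  (∀ Y, D.b.repr g Y ≠ 0 → φ Y ≤ M) ∧ ∃ Y, D.b.repr g Y ≠ 0 ∧ φ Y = M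

theorem Top.unique {φ : S → ℤ} {g : O} {M M' : ℤ} (h : D.Top φ g M) (h' : D.Top φ g M') :
    M = M' := by
  obtain ⟨h1, Y, h2, h3⟩ := h
  obtain ⟨h1', Y', h2', h3'⟩ := h'
  have h4 := h1 Y' h2'
  have h5 := h1' Y h2
  omega

theorem exists_top (D : Sys I S O) (φ : S → ℤ) {g : O} (hg : g ≠ 0) : ∃ M, D.Top φ g M := by
  classical
  have h1 : (D.b.repr g).support.Nonempty := by
    rw [Finsupp.support_nonempty_iff]
    intro h
    exact hg (by simpa using h)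
  obtain ⟨Y, hY, hmax⟩ := Finset.exists_max_image _ φ h1
  refine ⟨φ Y, fun Z hZ => hmax Z (Finsupp.mem_support_iff.2 hZ), Y,
    Finsupp.mem_support_iff.1 hY, rfl⟩

theorem top_b (D : Sys I S O) (φ : S → ℤ) (X : S) : D.Top φ (D.b X) (φ X) := by
  classical
  refine ⟨fun Y hY => ?_, X, by simp, rfl⟩
  rw [Module.Basis.repr_self, Finsupp.single_apply] at hY
  by_cases h : X = Y
  · rw [h]
  · rw [if_neg h] at hY
    exact absurd rfl hY

theorem split (D : Sys I S O) {P : S → Prop} (φ : S → ℤ) {g : O} {M : ℤ} (hg : g ∈ D.SS P)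
    (h : ∀ Y, D.b.repr g Y ≠ 0 → φ Y ≤ M) : ∃ g₁ g₂, g = g₁ + g₂ ∧
      g₁ ∈ D.SS (fun X => P X ∧ φ X = M) ∧ g₂ ∈ D.SS (fun X => P X ∧ φ X < M) ∧
      ∀ Y, φ Y = M → D.b.repr g₁ Y = D.b.repr g Y := by
  classical
  rw [mem_SS] at hg
  refine ⟨D.b.repr.symm ((D.b.repr g).filter fun X => φ X = M),
    D.b.repr.symm ((D.b.repr g).filter fun X => ¬ φ X = M), ?_, ?_, ?_, ?_⟩
  · rw [← map_add, Finsupp.filter_add_filter_not, LinearEquiv.symm_apply_apply]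
  · rw [mem_SS]
    intro Y hY
    rw [LinearEquiv.apply_symm_apply, Finsupp.filter_apply] at hY
    by_cases h1 : φ Y = M
    · rw [if_pos h1] at hY
      exact ⟨hg Y hY, h1⟩
    · rw [if_neg h1] at hY
      exact absurd rfl hY
  · rw [mem_SS]
    intro Y hY
    rw [LinearEquiv.apply_symm_apply, Finsupp.filter_apply] at hY
    by_cases h1 : φ Y = M
    · rw [if_neg (not_not.2 h1)] at hY
      exact absurd rfl hY
    · rw [if_pos h1] at hY
      exact ⟨hg Y hY, lt_of_le_of_ne (h Y hY) h1⟩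
  · intro Y hY
    rw [LinearEquiv.apply_symm_apply, Finsupp.filter_apply, if_pos hY]

theorem exists_supp (D : Sys I S O) {g : O} (hg : g ≠ 0) : ∃ Y, D.b.repr g Y ≠ 0 := by
  by_contra h
  push Not at h
  have : D.b.repr g = 0 := Finsupp.ext h
  exact hg (by simpa using this)

variable [IsDomain O]

theorem top_mul {P : S → Prop} {φ : S → ℤ}
    (hP : ∀ X Y Z, P X → P Y → D.co X Y Z ≠ 0 → P Z ∧ φ Z = φ X + φ Y) {g h : O} {M M' : ℤ}
    (hg : g ∈ D.SS P) (hh : h ∈ D.SS P) (hg' : D.Top φ g M) (hh' : D.Top φ h M') :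
    D.Top φ (g * h) (M + M') := by
  obtain ⟨g₁, g₂, e1, h1, h2, h3⟩ := D.split φ hg hg'.1
  obtain ⟨k₁, k₂, e2, h4, h5, h6⟩ := D.split φ hh hh'.1
  have hg1 : g₁ ≠ 0 := by
    obtain ⟨_, Y, hY, hY'⟩ := hg'
    rintro rfl
    rw [← h3 Y hY', map_zero] at hY
    exact hY rfl
  have hk1 : k₁ ≠ 0 := by
    obtain ⟨_, Y, hY, hY'⟩ := hh'
    rintro rfl
    rw [← h6 Y hY', map_zero] at hY
    exact hY rfl
  have e3 : g * h = g₁ * k₁ + (g₁ * k₂ + g₂ * k₁ + g₂ * k₂) := by rw [e1, e2]; ring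
  have h7 : g₁ * k₁ ∈ D.SS (fun X => φ X = M + M') := by
    refine D.SS_mul ?_ h1 h4
    rintro X Y Z ⟨a1, a2⟩ ⟨a3, a4⟩ hZ
    rw [(hP X Y Z a1 a3 hZ).2, a2, a4]
  have h8 : g₁ * k₂ + g₂ * k₁ + g₂ * k₂ ∈ D.SS (fun X => φ X < M + M') := by
    refine Submodule.add_mem _ (Submodule.add_mem _ ?_ ?_) ?_
    · refine D.SS_mul ?_ h1 h5
      rintro X Y Z ⟨a1, a2⟩ ⟨a3, a4⟩ hZ
      rw [(hP X Y Z a1 a3 hZ).2]; omega
    · refine D.SS_mul ?_ h2 h4
      rintro X Y Z ⟨a1, a2⟩ ⟨a3, a4⟩ hZ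
      rw [(hP X Y Z a1 a3 hZ).2]; omega
    · refine D.SS_mul ?_ h2 h5
      rintro X Y Z ⟨a1, a2⟩ ⟨a3, a4⟩ hZ
      rw [(hP X Y Z a1 a3 hZ).2]; omega
  rw [mem_SS] at h7 h8
  obtain ⟨Z, hZ⟩ := D.exists_supp (mul_ne_zero hg1 hk1)
  refine ⟨fun Y hY => ?_, Z, ?_, h7 Z hZ⟩
  · rw [e3, map_add, Finsupp.add_apply] at hY
    by_cases h9 : D.b.repr (g₁ * k₁) Y = 0
    · rw [h9, zero_add] at hY
      exact (h8 Y hY).le
    · exact (h7 Y h9).le
  · rw [e3, map_add, Finsupp.add_apply]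
    have h9 : D.b.repr (g₁ * k₂ + g₂ * k₁ + g₂ * k₂) Z = 0 := by
      by_contra h9
      have h10 := h8 Z h9
      have h11 := h7 Z hZ
      omega
    rw [h9, add_zero]
    exact hZ

omit [IsDomain O] in
theorem top_step {C : S} {φ : S → ℤ} {nb : S → S}
    (h1 : ∀ X Y Z, D.co X Y Z ≠ 0 → φ Z ≤ φ X + φ Y) (h2 : φ C = 0)
    (h3 : ∀ X, D.co C X (nb X) = 1 ∧ φ (nb X) = φ X ∧
      ∀ Z, D.co C X Z ≠ 0 → Z ≠ nb X → φ Z < φ X)
    (h4 : ∀ X Y, nb X = nb Y → X = Y) {g : O} {M : ℤ} (hg : D.Top φ g M) :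
    D.Top φ (D.b C * g) M := by
  classical
  obtain ⟨hg1, Y₀, hg2, hg3⟩ := hg
  refine ⟨?_, nb Y₀, ?_, (h3 Y₀).2.1.trans hg3⟩
  · have : D.b C * g ∈ D.SS (fun X => φ X ≤ M) := by
      refine D.SS_mul (p := fun X => X = C) (q := fun X => φ X ≤ M) ?_ (D.b_mem_SS.2 rfl)
        (D.mem_SS.2 hg1)
      rintro X Y Z rfl hY hZ
      have := h1 _ _ _ hZ
      omega
    exact D.mem_SS.1 this
  · have hmem : g - D.b.repr g Y₀ • D.b Y₀ ∈ D.SS (fun Y => Y ≠ Y₀ ∧ φ Y ≤ M) := by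
      rw [mem_SS]
      intro Y hY
      rw [map_sub, map_smul, Module.Basis.repr_self, Finsupp.sub_apply, Finsupp.smul_apply,
        Finsupp.single_apply] at hY
      by_cases hYY : Y₀ = Y
      · rw [if_pos hYY, hYY] at hY
        simp at hY
      · rw [if_neg hYY, smul_zero, sub_zero] at hY
        exact ⟨fun h => hYY h.symm, hg1 Y hY⟩
    have hmem2 : D.b C * (g - D.b.repr g Y₀ • D.b Y₀) ∈ D.SS (fun Y => Y ≠ nb Y₀) := by
      refine D.SS_mul (p := fun X => X = C) ?_ (D.b_mem_SS.2 rfl) hmem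
      rintro X Y Z rfl ⟨hY1, hY2⟩ hZ rfl
      have h5 := (h3 Y).2.2 _ hZ (fun h => hY1 (h4 _ _ h).symm)
      have h6 := (h3 Y₀).2.1
      omega
    have h7 : D.b.repr (D.b C * (g - D.b.repr g Y₀ • D.b Y₀)) (nb Y₀) = 0 := by
      by_contra h8
      exact (D.mem_SS.1 hmem2 _ h8) rfl
    have h8 : D.b C * g = D.b C * (g - D.b.repr g Y₀ • D.b Y₀) +
        D.b.repr g Y₀ • (D.b C * D.b Y₀) := by
      rw [mul_sub, mul_smul_comm, sub_add_cancel]
    rw [h8, map_add, Finsupp.add_apply, h7, zero_add, map_smul, Finsupp.smul_apply, repr_mul,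
      (h3 Y₀).1, Nat.cast_one, smul_eq_mul, mul_one]
    exact hg2

theorem top_main {C : S} (hC : D.Rl C) {φ : S → ℤ} {nb : S → S}
    (h1 : ∀ X Y Z, D.co X Y Z ≠ 0 → φ Z ≤ φ X + φ Y) (h2 : φ C = 0)
    (h3 : ∀ X, D.co C X (nb X) = 1 ∧ φ (nb X) = φ X ∧
      ∀ Z, D.co C X Z ≠ 0 → Z ≠ nb X → φ Z < φ X)
    (h4 : ∀ X Y, nb X = nb Y → X = Y)
    (h5 : ∀ X Y Z, D.Cm C X → D.Cm C Y → D.co X Y Z ≠ 0 → D.Cm C Z ∧ φ Z = φ X + φ Y)
    {g h : O} {x : S} (hgh : g * h = D.b x) :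
    ∃ M M', M + M' = φ x ∧ (∀ Y, D.b.repr g Y ≠ 0 → φ Y ≤ M) ∧
      (∀ Y, D.b.repr h Y ≠ 0 → φ Y ≤ M') := by
  have hg : g ≠ 0 := by
    rintro rfl
    rw [zero_mul] at hgh
    exact D.b.ne_zero x hgh.symm
  have hh : h ≠ 0 := by
    rintro rfl
    rw [mul_zero] at hgh
    exact D.b.ne_zero x hgh.symm
  obtain ⟨M, hM⟩ := D.exists_top φ hg
  obtain ⟨M', hM'⟩ := D.exists_top φ hh
  refine ⟨M, M', ?_, hM.1, hM'.1⟩
  have hpow : ∀ (n : ℕ) {g : O} {M : ℤ}, D.Top φ g M → D.Top φ (D.b C ^ n * g) M := by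
    intro n
    induction n with
    | zero => intro g M h; rwa [pow_zero, one_mul]
    | succ n ih =>
      intro g M h
      rw [pow_succ', mul_assoc]
      exact top_step h1 h2 h3 h4 (ih h)
  obtain ⟨n, hn⟩ := D.ev_cm hC g
  obtain ⟨m, hm⟩ := D.ev_cm hC h
  have e1 := top_mul h5 (hn n (le_refl n)) (hm m (le_refl m)) (hpow n hM) (hpow m hM')
  have e2 : D.b C ^ n * g * (D.b C ^ m * h) = D.b C ^ (n + m) * D.b x := by
    rw [← hgh, pow_add]; ring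
  rw [e2] at e1
  exact e1.unique (hpow (n + m) (D.top_b φ x))

/-- `φ` additive on all products: constant on the supports of the factors of a simple -/
theorem top_add {φ : S → ℤ} (hP : ∀ X Y Z, D.co X Y Z ≠ 0 → φ Z = φ X + φ Y) {g h : O} {x : S}
    (hgh : g * h = D.b x) :
    ∃ M M', M + M' = φ x ∧ (∀ Y, D.b.repr g Y ≠ 0 → φ Y = M) ∧
      (∀ Y, D.b.repr h Y ≠ 0 → φ Y = M') := by
  have hg : g ≠ 0 := by
    rintro rfl
    rw [zero_mul] at hgh
    exact D.b.ne_zero x hgh.symm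
  have hh : h ≠ 0 := by
    rintro rfl
    rw [mul_zero] at hgh
    exact D.b.ne_zero x hgh.symm
  obtain ⟨M, hM⟩ := D.exists_top φ hg
  obtain ⟨M', hM'⟩ := D.exists_top φ hh
  obtain ⟨K, hK⟩ := D.exists_top (fun X => - φ X) hg
  obtain ⟨K', hK'⟩ := D.exists_top (fun X => - φ X) hh
  have e1 : D.Top φ (g * h) (M + M') :=
    top_mul (P := fun _ => True) (fun X Y Z _ _ hZ => ⟨trivial, hP X Y Z hZ⟩)
      (D.mem_SS_top g) (D.mem_SS_top h) hM hM'
  have e2 : D.Top (fun X => - φ X) (g * h) (K + K') :=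
    top_mul (P := fun _ => True) (fun X Y Z _ _ hZ => ⟨trivial, by rw [hP X Y Z hZ]; ring⟩)
      (D.mem_SS_top g) (D.mem_SS_top h) hK hK'
  rw [hgh] at e1 e2
  have e3 := e1.unique (D.top_b φ x)
  have e4 : K + K' = - φ x := e2.unique (D.top_b (fun X => - φ X) x)
  obtain ⟨Y₁, hY₁⟩ := D.exists_supp hg
  obtain ⟨Y₂, hY₂⟩ := D.exists_supp hh
  have a1 := hM.1 Y₁ hY₁
  have a2 : - φ Y₁ ≤ K := hK.1 Y₁ hY₁
  have a3 := hM'.1 Y₂ hY₂
  have a4 : - φ Y₂ ≤ K' := hK'.1 Y₂ hY₂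
  refine ⟨M, M', e3, fun Y hY => ?_, fun Y hY => ?_⟩
  · have b1 := hM.1 Y hY
    have b2 : - φ Y ≤ K := hK.1 Y hY
    omega
  · have b1 := hM'.1 Y hY
    have b2 : - φ Y ≤ K' := hK'.1 Y hY
    omega

/-- Theorem F, first step -/
theorem supp_comm {C : S} (hC : D.Rl C) {g h : O} {x : S} (hgh : g * h = D.b x)
    (hx : D.Cm C x) :
    ∃ M, ∀ Y, D.b.repr g Y ≠ 0 → D.Cm C Y ∧ D.Lam C Y = M := by
  obtain ⟨M₁, M₂, e1, a1, a2⟩ := top_main hC (φ := D.Lam C) (nb := D.nab C)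
    (fun X Y Z hZ => D.Lam_co C X Y Z hC hZ) (D.Lam_self C hC)
    (fun X => D.nab_spec C X hC) (fun X Y h => D.nab_inj C X Y hC h)
    (fun X Y Z hX hY hZ => ⟨(D.cm_co hC hX hY hZ).1, (D.cm_co hC hX hY hZ).2.1⟩) hgh
  obtain ⟨K₁, K₂, e2, b1, b2⟩ := top_main hC (φ := D.Lam' C) (nb := D.nab' C)
    (fun X Y Z hZ => D.Lam'_co C X Y Z hC hZ) (D.Lam'_self C hC)
    (fun X => D.nab'_spec C X hC) (fun X Y h => D.nab'_inj C X Y hC h)
    (fun X Y Z hX hY hZ => ⟨(D.cm_co hC hX hY hZ).1, (D.cm_co hC hX hY hZ).2.2⟩) hgh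
  have e3 := (D.cm_iff hC).1 hx
  rw [d] at e3
  have hh : h ≠ 0 := by
    rintro rfl
    rw [mul_zero] at hgh
    exact D.b.ne_zero x hgh.symm
  obtain ⟨Y₂, hY₂⟩ := D.exists_supp hh
  refine ⟨M₁, fun Y hY => ?_⟩
  have c1 := a1 Y hY
  have c2 := b1 Y hY
  have c3 := a2 Y₂ hY₂
  have c4 := b2 Y₂ hY₂
  have c5 := D.Lam_nonneg C Y hC
  have c6 := D.Lam_nonneg C Y₂ hC
  exact ⟨D.cm_of_d hC (by rw [d]; omega), by omega⟩

omit [IsDomain O] in
theorem tau_repr (i : I) (a : ℕ) (g : O) {Y : S} (hY : D.eps i Y = a) :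
    D.b.repr (D.tau i a g) (D.E i Y) = D.b.repr g Y := by
  classical
  have h : (D.b.coord (D.E i Y)) ∘ₗ D.tau i a = D.b.coord Y := by
    refine D.b.ext fun Z => ?_
    rw [LinearMap.comp_apply, tau_b, Module.Basis.coord_apply, Module.Basis.coord_apply,
      Module.Basis.repr_self, Finsupp.single_apply]
    by_cases h1 : D.eps i Z = a
    · rw [if_pos h1, Module.Basis.repr_self, Finsupp.single_apply]
      by_cases h2 : Z = Y
      · rw [if_pos h2, h2, if_pos rfl]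
      · rw [if_neg h2, if_neg]
        intro h3
        exact h2 (D.eps_inj i Z Y (h1.trans hY.symm) h3)
    · rw [if_neg h1, map_zero, if_neg]
      · rfl
      · rintro rfl
        exact h1 hY
  exact LinearMap.congr_fun h g

omit [IsDomain O] in
theorem tau_supp (i : I) (a : ℕ) (g : O) {W : S} (hW : D.b.repr (D.tau i a g) W ≠ 0) :
    ∃ Y, D.eps i Y = a ∧ D.E i Y = W ∧ D.b.repr g Y ≠ 0 := by
  have h1 : D.tau i a g ∈ D.SS fun X => D.eps i X = 0 := by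
    refine Submodule.span_induction (p := fun g _ => D.tau i a g ∈ D.SS fun X => D.eps i X = 0)
      ?_ ?_ ?_ ?_ (D.mem_SS_top g)
    · rintro _ ⟨Y, _, rfl⟩
      rw [tau_b]
      split_ifs
      · exact D.b_mem_SS.2 (D.eps_E i Y)
      · exact Submodule.zero_mem _
    · rw [map_zero]; exact Submodule.zero_mem _
    · intro x y _ _ hx hy
      rw [map_add]; exact Submodule.add_mem _ hx hy
    · intro c x _ hx
      rw [map_smul]; exact Submodule.smul_mem _ _ hx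
  obtain ⟨Y, hY1, hY2⟩ := D.eps_surj i a W (D.mem_SS.1 h1 W hW)
  refine ⟨Y, hY1, hY2, ?_⟩
  rw [← tau_repr i a g hY1, hY2]
  exact hW

/-- Theorem F, second step: the tails are trivial -/
theorem supp_ad (w : List I) : ∀ {g h : O} {x : S}, D.Ad w x → g * h = D.b x →
    (∀ Y Y', D.b.repr g Y ≠ 0 → D.b.repr g Y' ≠ 0 → D.str w Y = D.str w Y') →
    (∀ Y Y', D.b.repr h Y ≠ 0 → D.b.repr h Y' ≠ 0 → D.str w Y = D.str w Y') →
    ∀ Y, D.b.repr g Y ≠ 0 → D.Ad w Y := by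
  induction w with
  | nil =>
    intro g h x hx hgh _ _ Y hY
    have hh : h ≠ 0 := by
      rintro rfl
      rw [mul_zero] at hgh
      exact D.b.ne_zero x hgh.symm
    obtain ⟨Y₂, hY₂⟩ := D.exists_supp hh
    refine D.wt_zero Y (Finsupp.ext fun i => ?_)
    obtain ⟨M, M', e1, e2, e3⟩ := top_add (φ := fun X => (D.wt X i : ℤ))
      (fun X Y Z hZ => by rw [D.wt_co X Y Z hZ]; simp) hgh
    have e4 := e2 Y hY
    have e5 := e3 Y₂ hY₂
    rw [Ad_nil] at hx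
    rw [hx, D.wt_one] at e1
    simp only [Finsupp.coe_zero, Pi.zero_apply] at e1 ⊢
    omega
  | cons i w ih =>
    intro g h x hx hgh hg hh Y hY
    have hh0 : h ≠ 0 := by
      rintro rfl
      rw [mul_zero] at hgh
      exact D.b.ne_zero x hgh.symm
    obtain ⟨Y₂, hY₂⟩ := D.exists_supp hh0
    set a := D.eps i Y with ha
    set a' := D.eps i Y₂ with ha'
    have ha1 : ∀ Z, D.b.repr g Z ≠ 0 → D.eps i Z = a := by
      intro Z hZ
      have := congrArg (hd i w) (hg Z Y hZ hY)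
      rw [hd_str, hd_str] at this
      exact_mod_cast this
    have ha2 : ∀ Z, D.b.repr h Z ≠ 0 → D.eps i Z = a' := by
      intro Z hZ
      have := congrArg (hd i w) (hh Z Y₂ hZ hY₂)
      rw [hd_str, hd_str] at this
      exact_mod_cast this
    have h1 := D.tau_mul i a a' (g := g) (g' := h) (D.mem_SS.2 fun Z hZ => (ha1 Z hZ).le)
      (D.mem_SS.2 fun Z hZ => (ha2 Z hZ).le)
    have hgY : D.b.repr (D.tau i a g) (D.E i Y) ≠ 0 := by rw [tau_repr i a g rfl]; exact hY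
    have hhY : D.b.repr (D.tau i a' h) (D.E i Y₂) ≠ 0 := by rw [tau_repr i a' h rfl]; exact hY₂
    rw [hgh, tau_b] at h1
    by_cases h2 : D.eps i x = a + a'
    · rw [if_pos h2] at h1
      refine ih (g := D.tau i a g) (h := D.tau i a' h) hx h1.symm ?_ ?_ (D.E i Y) hgY
      · intro W W' hW hW'
        obtain ⟨Z, _, rfl, hZ⟩ := tau_supp i a g hW
        obtain ⟨Z', _, rfl, hZ'⟩ := tau_supp i a g hW'
        exact congrArg (tl i w) (hg Z Z' hZ hZ')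
      · intro W W' hW hW'
        obtain ⟨Z, _, rfl, hZ⟩ := tau_supp i a' h hW
        obtain ⟨Z', _, rfl, hZ'⟩ := tau_supp i a' h hW'
        exact congrArg (tl i w) (hh Z Z' hZ hZ')
    · exfalso
      rw [if_neg h2] at h1
      rcases mul_eq_zero.1 h1.symm with h3 | h3
      · rw [h3, map_zero] at hgY
        exact hgY rfl
      · rw [h3, map_zero] at hhY
        exact hhY rfl

theorem supp_str {w : List I} {N : Submonoid O} (hN : D.Fam w N) (hfull : D.sp w N = ⊤)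
    {g h : O} {x : S} (hx : D.b x ∈ N) (hgh : g * h = D.b x) :
    ∀ Y Y', D.b.repr g Y ≠ 0 → D.b.repr g Y' ≠ 0 → D.str w Y = D.str w Y' := by
  intro Y Y' hY hY'
  have hwt : D.wt Y = D.wt Y' + D.wt D.one := by
    rw [D.wt_one, add_zero]
    refine Finsupp.ext fun i => ?_
    obtain ⟨M, M', e1, e2, e3⟩ := top_add (φ := fun X => (D.wt X i : ℤ))
      (fun X Y Z hZ => by rw [D.wt_co X Y Z hZ]; simp) hgh
    have e4 := e2 Y hY
    have e5 := e2 Y' hY'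
    omega
  have h1 : D.LL w Y = D.LL w Y' + D.LL w D.one := by
    refine LinearMap.ext_on (s := {v | ∃ X, D.b X ∈ N ∧ D.str w X = v}) hfull ?_
    rintro _ ⟨C, hC, rfl⟩
    obtain ⟨M, hM⟩ := supp_comm (hN.rl hC) hgh (hN.cm hC hx)
    obtain ⟨g1, g2⟩ := hM Y hY
    obtain ⟨g3, g4⟩ := hM Y' hY'
    rw [LinearMap.add_apply, ← D.Lam_LL w (hN.rl hC) (hN.ad hC) g1,
      ← D.Lam_LL w (hN.rl hC) (hN.ad hC) g3, D.LL_one, g2, g4]
    simp
  have h2 := D.LL_inj w hwt (fun v => by rw [h1]; rfl)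
  rw [D.str_one, add_zero] at h2
  exact h2

/-- Theorem F -/
theorem thmF {w : List I} {N : Submonoid O} (hN : D.Fam w N) (hfull : D.sp w N = ⊤)
    (hmax : ∀ X, D.CC w N X → D.b X ∈ N) {g h : O} {x : S} (hx : D.b x ∈ N)
    (hgh : g * h = D.b x) : ∃ (a : ℚ) (Y : S), D.b Y ∈ N ∧ g = a • D.b Y := by
  classical
  have hg0 : g ≠ 0 := by
    rintro rfl
    rw [zero_mul] at hgh
    exact D.b.ne_zero x hgh.symm
  have hgh' : h * g = D.b x := by rw [mul_comm]; exact hgh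
  have hs1 := supp_str hN hfull hx hgh
  have hs2 := supp_str hN hfull hx hgh'
  have had := supp_ad w (hN.ad hx) hgh hs1 hs2
  obtain ⟨Y, hY⟩ := D.exists_supp hg0
  refine ⟨D.b.repr g Y, Y, ?_, ?_⟩
  · refine hmax Y ⟨had Y hY, fun C hC => ?_⟩
    obtain ⟨M, hM⟩ := supp_comm (hN.rl hC) hgh (hN.cm hC hx)
    exact (hM Y hY).1
  · refine D.b.repr.injective (Finsupp.ext fun Z => ?_)
    rw [map_smul, Module.Basis.repr_self, Finsupp.smul_apply, Finsupp.single_apply]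
    by_cases hZ : Y = Z
    · rw [if_pos hZ, hZ, smul_eq_mul, mul_one]
    · rw [if_neg hZ, smul_zero]
      by_contra hZ0
      exact hZ (D.str_inj w (had Y hY) (had Z hZ0) (hs1 Y Z hY hZ0))

/-- units are scalars -/
theorem unit_scalar (D : Sys I S O) {g h : O} (hgh : g * h = 1) : ∃ a : ℚ, g = a • (1 : O) := by
  classical
  rw [← D.b_one] at hgh
  have h1 := supp_ad [] (D.Ad_one []) hgh (fun _ _ _ _ => rfl) (fun _ _ _ _ => rfl)
  refine ⟨D.b.repr g D.one, ?_⟩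
  rw [← D.b_one]
  refine D.b.repr.injective (Finsupp.ext fun Z => ?_)
  rw [map_smul, Module.Basis.repr_self, Finsupp.smul_apply, Finsupp.single_apply]
  by_cases hZ : D.one = Z
  · rw [if_pos hZ, hZ, smul_eq_mul, mul_one]
  · rw [if_neg hZ, smul_zero]
    by_contra hZ0
    exact hZ (h1 Z hZ0).symm

end Sys

end Pool.Agent.KLSAbs
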