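import Pool.Agent.Work.MP_e487d8_al.Y.Abs.LamF

/-! MP_e487d8_al, abstract part: families, Theorem A, generic elements. -/

set_option autoImplicit false

namespace Pool.Agent.KLSAbs

variable {I S O : Type} [DecidableEq I] [CommRing O] [Algebra ℚ O] (D : Sys I S O)

/-- `v` in the span of an additive submonoid: a positive multiple of `v` is a difference -/
theorem span_nat {W : Type} [AddCommGroup W] [Module ℚ W] (T : AddSubmonoid W) {v : W}
    (hv : v ∈ Submodule.span ℚ (T : Set W)) :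
    ∃ k : ℕ, 0 < k ∧ ∃ x ∈ T, ∃ y ∈ T, k • v + x = y := by
  refine Submodule.span_induction (p := fun v _ =>
    ∃ k : ℕ, 0 < k ∧ ∃ x ∈ T, ∃ y ∈ T, k • v + x = y) ?_ ?_ ?_ ?_ hv
  · intro v hv
    exact ⟨1, one_pos, 0, T.zero_mem, v, hv, by rw [one_smul, add_zero]⟩
  · exact ⟨1, one_pos, 0, T.zero_mem, 0, T.zero_mem, by simp⟩
  · rintro v v' _ _ ⟨k, hk, x, hx, y, hy, h⟩ ⟨k', hk', x', hx', y', hy', h'⟩
    refine ⟨k * k', Nat.mul_pos hk hk', k' • x + k • x',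
      T.add_mem (T.nsmul_mem hx _) (T.nsmul_mem hx' _), k' • y + k • y',
      T.add_mem (T.nsmul_mem hy _) (T.nsmul_mem hy' _), ?_⟩
    rw [← h, ← h']
    module
  · rintro q v _ ⟨k, hk, x, hx, y, hy, h⟩
    have hq : (q.den : ℚ) ≠ 0 := by exact_mod_cast q.den_ne_zero
    have h1 : ∀ u : W, (q.den * k : ℕ) • (q • u) = (q.num * k : ℤ) • u := by
      intro u
      rw [← Nat.cast_smul_eq_nsmul ℚ, ← Int.cast_smul_eq_zsmul ℚ, smul_smul]
      congr 1
      push_cast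
      have h2 : (q.num : ℚ) = q.den * q := by
        rw [mul_comm]; exact (Rat.mul_den_eq_num q).symm
      rw [h2]; ring
    rcases le_total 0 q.num with h0 | h0
    · obtain ⟨a, ha⟩ := Int.eq_ofNat_of_zero_le h0
      refine ⟨q.den * k, Nat.mul_pos q.den_pos hk, a • x, T.nsmul_mem hx _, a • y,
        T.nsmul_mem hy _, ?_⟩
      rw [h1, ha, ← h, smul_add, ← mul_smul]
      congr 1
      rw [← Int.natCast_mul, natCast_zsmul]
    · obtain ⟨a, ha⟩ := Int.eq_ofNat_of_zero_le (neg_nonneg.2 h0)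
      refine ⟨q.den * k, Nat.mul_pos q.den_pos hk, a • y, T.nsmul_mem hy _, a • x,
        T.nsmul_mem hx _, ?_⟩
      have ha' : q.num = -(a : ℤ) := by omega
      rw [h1, ha', ← h, smul_add, ← mul_smul, neg_mul, neg_smul, ← Int.natCast_mul,
        natCast_zsmul]
      abel

namespace Sys

/-- a family of adapted simple modules closed under convolution, as a submonoid of `O` -/
structure Fam (w : List I) (N : Submonoid O) : Prop where
  spl : ∀ x ∈ N, ∃ X, D.b X = x ∧ D.Ad w X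

/-- span of the strings -/
def sp (w : List I) (N : Submonoid O) : Submodule ℚ (V w) :=
  Submodule.span ℚ {v | ∃ X, D.b X ∈ N ∧ D.str w X = v}

/-- adapted and commuting with the family -/
def CC (w : List I) (N : Submonoid O) (X : S) : Prop :=
  D.Ad w X ∧ ∀ C, D.b C ∈ N → D.Cm C X

variable {D}

theorem Fam.ad {w : List I} {N : Submonoid O} (hN : D.Fam w N) {X : S} (hX : D.b X ∈ N) :
    D.Ad w X := by
  obtain ⟨Y, h1, h2⟩ := hN.spl _ hX
  rwa [← D.b_inj h1]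

theorem Fam.cm {w : List I} {N : Submonoid O} (hN : D.Fam w N) {X Y : S} (hX : D.b X ∈ N)
    (hY : D.b Y ∈ N) : D.Cm X Y := by
  obtain ⟨Z, h1, _⟩ := hN.spl _ (N.mul_mem hX hY)
  exact ⟨Z, h1.symm⟩

theorem Fam.rl {w : List I} {N : Submonoid O} (hN : D.Fam w N) {X : S} (hX : D.b X ∈ N) :
    D.Rl X := hN.cm hX hX

theorem Fam.cc {w : List I} {N : Submonoid O} (hN : D.Fam w N) {X : S} (hX : D.b X ∈ N) :
    D.CC w N X := ⟨hN.ad hX, fun _ hC => hN.cm hC hX⟩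

theorem Fam.one_mem {w : List I} {N : Submonoid O} (_ : D.Fam w N) : D.b D.one ∈ N := by
  rw [D.b_one]; exact N.one_mem

theorem Fam.mono {w : List I} {N N' : Submonoid O} (hN : D.Fam w N) (h : N' ≤ N) :
    D.Fam w N' := ⟨fun x hx => hN.spl x (h hx)⟩

variable [IsDomain O]

/-- the strings of a family -/
def Fam.strs {w : List I} {N : Submonoid O} (hN : D.Fam w N) : AddSubmonoid (V w) where
  carrier := {v | ∃ X, D.b X ∈ N ∧ D.str w X = v}
  zero_mem' := ⟨D.one, hN.one_mem, D.str_one w⟩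
  add_mem' := by
    rintro _ _ ⟨X, hX, rfl⟩ ⟨Y, hY, rfl⟩
    obtain ⟨Z, hZ⟩ := hN.cm hX hY
    exact ⟨Z, by rw [← hZ]; exact N.mul_mem hX hY, D.str_mul w hZ⟩

/-- powers -/
theorem str_pow (w : List I) {X : S} : ∀ (k : ℕ) {Z : S}, D.b X ^ k = D.b Z →
    (∀ j ≤ k, ∃ W, D.b X ^ j = D.b W) → D.str w Z = k • D.str w X := by
  intro k
  induction k with
  | zero =>
    intro Z h _
    rw [pow_zero, ← D.b_one] at h
    rw [← D.b_inj h, D.str_one, zero_smul]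
  | succ k ih =>
    intro Z h hj
    obtain ⟨W, hW⟩ := hj k (Nat.le_succ k)
    rw [pow_succ, hW] at h
    rw [D.str_mul w h, ih hW (fun j hj' => hj j (Nat.le_succ_of_le hj')), succ_nsmul]

theorem Fam.str_pow {w : List I} {N : Submonoid O} (hN : D.Fam w N) {X Z : S} (hX : D.b X ∈ N)
    (k : ℕ) (h : D.b X ^ k = D.b Z) : D.str w Z = k • D.str w X := by
  refine Sys.str_pow w k h fun j _ => ?_
  obtain ⟨W, hW, _⟩ := hN.spl _ (N.pow_mem hX j)
  exact ⟨W, hW.symm⟩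

/-- an element whose string is in the span of the strings of a subfamily -/
theorem Fam.rel {w : List I} {N N₀ : Submonoid O} (hN : D.Fam w N) (h0 : N₀ ≤ N) {X : S}
    (hX : D.b X ∈ N) (hs : D.str w X ∈ D.sp w N₀) :
    ∃ k : ℕ, 0 < k ∧ ∃ P Q, D.b P ∈ N₀ ∧ D.b Q ∈ N₀ ∧ D.b X ^ k * D.b P = D.b Q := by
  have hN₀ := hN.mono h0
  obtain ⟨k, hk, _, ⟨P, hP, rfl⟩, _, ⟨Q, hQ, rfl⟩, h⟩ := span_nat hN₀.strs hs
  refine ⟨k, hk, P, Q, hP, hQ, ?_⟩
  obtain ⟨Xk, hXk, _⟩ := hN.spl _ (N.pow_mem hX k)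
  obtain ⟨Z, hZ, hZa⟩ := hN.spl _ (N.mul_mem (N.pow_mem hX k) (h0 hP))
  rw [← hZ]
  rw [← hXk] at hZ
  have h1 : D.str w Z = D.str w Q := by
    rw [D.str_mul w hZ.symm, hN.str_pow hX k hXk.symm]
    exact h
  rw [D.str_inj w hZa (hN₀.ad hQ) h1]

/-! ### Theorem A -/

theorem thmA_aux {w : List I} {N : Submonoid O} (hN : D.Fam w N) (hsp : D.sp w N = ⊤) {X Y Z : S}
    (hX : D.CC w N X) (hY : D.CC w N Y) (hZ : D.co X Y Z ≠ 0) :
    D.Ad w Z ∧ D.str w Z = D.str w X + D.str w Y := by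
  have hwt := D.wt_co X Y Z hZ
  have h1 : ∀ v, D.LL w Z v = D.LL w X v + D.LL w Y v := by
    have h2 : D.LL w Z = D.LL w X + D.LL w Y := by
      refine LinearMap.ext_on (s := {v | ∃ X, D.b X ∈ N ∧ D.str w X = v}) hsp ?_
      rintro _ ⟨C, hC, rfl⟩
      obtain ⟨g1, g2, _⟩ := D.cm_co (hN.rl hC) (hX.2 C hC) (hY.2 C hC) hZ
      rw [LinearMap.add_apply, ← D.Lam_LL w (hN.rl hC) (hN.ad hC) g1,
        ← D.Lam_LL w (hN.rl hC) (hN.ad hC) (hX.2 C hC),
        ← D.Lam_LL w (hN.rl hC) (hN.ad hC) (hY.2 C hC), g2]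
      push_cast; rfl
    intro v
    rw [h2]; rfl
  have h2 := D.LL_inj w hwt h1
  exact ⟨D.Ad_of_wt w hwt hX.1 hY.1 h2, h2⟩

theorem thmA {w : List I} {N : Submonoid O} (hN : D.Fam w N) (hsp : D.sp w N = ⊤) {X Y : S}
    (hX : D.CC w N X) (hY : D.CC w N Y) : ∃ Z, D.b X * D.b Y = D.b Z ∧ D.CC w N Z := by
  obtain ⟨Z, hZ⟩ := D.simple_of_lead w hX.1 hY.1 (fun Z hZ => thmA_aux hN hsp hX hY hZ)
  refine ⟨Z, hZ, D.Ad_mul w hX.1 hY.1 hZ, fun C hC => ?_⟩
  exact (D.cm_co (hN.rl hC) (hX.2 C hC) (hY.2 C hC)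
    (by rw [D.co_of_mul hZ]; exact one_ne_zero)).1

/-- the family of all adapted modules commuting with a family of full rank -/
def cent {w : List I} {N : Submonoid O} (hN : D.Fam w N) (hsp : D.sp w N = ⊤) :
    Submonoid O where
  carrier := {x | ∃ X, D.b X = x ∧ D.CC w N X}
  one_mem' := ⟨D.one, D.b_one, hN.cc hN.one_mem⟩
  mul_mem' := by
    rintro _ _ ⟨X, rfl, hX⟩ ⟨Y, rfl, hY⟩
    obtain ⟨Z, hZ, hZ'⟩ := thmA hN hsp hX hY
    exact ⟨Z, hZ.symm, hZ'⟩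

theorem cent_fam {w : List I} {N : Submonoid O} (hN : D.Fam w N) (hsp : D.sp w N = ⊤) :
    D.Fam w (cent hN hsp) := ⟨fun _ ⟨X, h1, h2⟩ => ⟨X, h1, h2.1⟩⟩

theorem le_cent {w : List I} {N : Submonoid O} (hN : D.Fam w N) (hsp : D.sp w N = ⊤) :
    N ≤ cent hN hsp := by
  intro x hx
  obtain ⟨X, rfl, _⟩ := hN.spl x hx
  exact ⟨X, rfl, hN.cc hx⟩

theorem mem_cent {w : List I} {N : Submonoid O} (hN : D.Fam w N) (hsp : D.sp w N = ⊤) {X : S} :
    D.b X ∈ cent hN hsp ↔ D.CC w N X := by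
  constructor
  · rintro ⟨Y, h1, h2⟩
    rwa [← D.b_inj h1]
  · intro h
    exact ⟨X, rfl, h⟩

/-! ### generic elements -/

omit [IsDomain O] in
theorem cm_closure {w : List I} {N : Submonoid O} (hN : D.Fam w N) (s : Set O) (hs : s ⊆ N) {X : S}
    (h : ∀ C, D.b C ∈ s → D.Cm C X) {C : S} (hC : D.b C ∈ Submonoid.closure s) : D.Cm C X := by
  have hle : Submonoid.closure s ≤ N := Submonoid.closure_le.2 hs
  have key : ∀ x ∈ Submonoid.closure s, ∀ C, D.b C = x → D.Cm C X := by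
    intro x hx
    refine Submonoid.closure_induction (motive := fun x _ => ∀ C, D.b C = x → D.Cm C X) ?_ ?_ ?_ hx
    · rintro x hx C rfl
      exact h C hx
    · intro C hC
      rw [← D.b_one] at hC
      rw [D.b_inj hC]
      exact D.cm_one' X
    · intro x y hx hy ihx ihy C hC
      obtain ⟨P, rfl, _⟩ := hN.spl x (hle hx)
      obtain ⟨Q, rfl, _⟩ := hN.spl y (hle hy)
      exact D.cm_mul (hN.rl (hle hx)) hC.symm (ihx P rfl) (ihy Q rfl)
  exact key _ hC C rfl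

theorem cm_left {C C' B X : S} (h : D.b C * D.b C' = D.b B) (hB : D.Cm B X) : D.Cm C' X := by
  obtain ⟨Z, hZ⟩ := hB
  refine D.cm_of_mul_mul (C := C) (Z := Z) ?_
  rw [← mul_assoc, h, hZ]

theorem exists_gen {w : List I} {N : Submonoid O} (hN : D.Fam w N) :
    ∃ f, D.b f ∈ N ∧ ∀ X, D.Cm f X → ∀ C, D.b C ∈ N → D.Cm C X := by
  classical
  obtain ⟨s, hs1, hs2⟩ := (Submodule.fg_span_iff_fg_span_finset_subset
    {v | ∃ X, D.b X ∈ N ∧ D.str w X = v}).1 (IsNoetherian.noetherian (R := ℚ) (M := V w) _)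
  have : Nonempty S := ⟨D.one⟩
  have hs1' : ∀ v ∈ s, ∃ X, D.b X ∈ N ∧ D.str w X = v := fun v hv => hs1 hv
  choose! c hc1 hc2 using hs1'
  have hfac : ∀ t : Finset (V w), t ⊆ s → ∃ f, D.b f ∈ N ∧ ∀ v ∈ t, ∃ g, D.b g ∈ N ∧
      D.b g * D.b (c v) = D.b f := by
    intro t
    induction t using Finset.induction_on with
    | empty => exact fun _ => ⟨D.one, hN.one_mem, fun v hv => absurd hv (Finset.notMem_empty v)⟩
    | insert a t ha ih =>
      intro hts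
      obtain ⟨f, hf, hf'⟩ := ih (fun x hx => hts (Finset.mem_insert_of_mem hx))
      have hca : D.b (c a) ∈ N := hc1 a (hts (Finset.mem_insert_self a t))
      obtain ⟨F, hF, _⟩ := hN.spl _ (N.mul_mem hf hca)
      refine ⟨F, by rw [hF]; exact N.mul_mem hf hca, fun v hv => ?_⟩
      rcases Finset.mem_insert.1 hv with rfl | hv
      · exact ⟨f, hf, hF.symm⟩
      · obtain ⟨g, hg, hg'⟩ := hf' v hv
        obtain ⟨G, hG, _⟩ := hN.spl _ (N.mul_mem hg hca)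
        refine ⟨G, by rw [hG]; exact N.mul_mem hg hca, ?_⟩
        rw [hG, hF, ← hg']; ring
  obtain ⟨f, hf, hf'⟩ := hfac s (Finset.Subset.refl s)
  refine ⟨f, hf, fun X hX C hC => ?_⟩
  set A : Set O := {x | ∃ v ∈ s, D.b (c v) = x} with hA
  have hAN : A ⊆ N := by
    rintro _ ⟨v, hv, rfl⟩
    exact hc1 v hv
  have h0 : Submonoid.closure A ≤ N := Submonoid.closure_le.2 hAN
  have h1 : D.str w C ∈ D.sp w (Submonoid.closure A) := by
    have h2 : D.str w C ∈ Submodule.span ℚ (s : Set (V w)) := by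
      rw [← hs2]
      exact Submodule.subset_span ⟨C, hC, rfl⟩
    refine Submodule.span_mono ?_ h2
    intro v hv
    exact ⟨c v, Submonoid.subset_closure ⟨v, hv, rfl⟩, hc2 v hv⟩
  obtain ⟨k, hk, P, Q, hP, hQ, h⟩ := hN.rel h0 hC h1
  have hQX : D.Cm Q X := by
    refine cm_closure hN A hAN ?_ hQ
    rintro C' ⟨v, hv, hv'⟩
    obtain ⟨g, _, hg'⟩ := hf' v hv
    rw [← D.b_inj hv']
    exact cm_left hg' hX
  obtain ⟨j, rfl⟩ : ∃ j, k = j + 1 := ⟨k - 1, by omega⟩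
  obtain ⟨R, hR, _⟩ := hN.spl _ (N.mul_mem (N.pow_mem hC j) (h0 hP))
  refine cm_left (C := R) (B := Q) ?_ hQX
  rw [hR, ← h]; ring

/-- Lemma Ext -/
theorem ext_fam {w : List I} {N : Submonoid O} (hN : D.Fam w N) {X : S} (hR : D.Rl X)
    (hX : D.CC w N X) : D.Fam w (N ⊔ Submonoid.powers (D.b X)) := by
  refine ⟨fun x hx => ?_⟩
  obtain ⟨y, hy, z, hz, rfl⟩ := Submonoid.mem_sup.1 hx
  obtain ⟨k, rfl⟩ := hz
  obtain ⟨Y, rfl, _⟩ := hN.spl y hy
  have key : ∀ k : ℕ, ∃ Z, D.b Z = D.b Y * D.b X ^ k ∧ D.CC w N Z ∧ D.Cm X Z := by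
    intro k
    induction k with
    | zero => exact ⟨Y, by rw [pow_zero, mul_one], hN.cc hy, (hX.2 Y hy).symm⟩
    | succ k ih =>
      obtain ⟨Z, h1, h2, h3⟩ := ih
      obtain ⟨W, hW⟩ := h3
      refine ⟨W, ?_, ⟨D.Ad_mul w hX.1 h2.1 hW, fun C hC => ?_⟩, ?_⟩
      · rw [← hW, h1]; ring
      · exact (D.cm_co (hN.rl hC) (hX.2 C hC) (h2.2 C hC)
          (by rw [D.co_of_mul hW]; exact one_ne_zero)).1
      · exact (D.cm_co hR hR ⟨W, hW⟩ (by rw [D.co_of_mul hW]; exact one_ne_zero)).1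
  obtain ⟨Z, h1, h2, _⟩ := key k
  exact ⟨Z, h1, h2.1⟩

end Sys

end Pool.Agent.KLSAbs
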