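import Pool.Agent.Work.MP_e487d8_al.Y.Abs.Basic

/-! MP_e487d8_al, abstract part: positivity, `e_i^max`, strings. -/

set_option autoImplicit false

namespace Pool.Agent.KLSAbs

variable {I S O : Type} [DecidableEq I] [CommRing O] [Algebra ℚ O] (D : Sys I S O)

namespace Sys

theorem wt_one : D.wt D.one = 0 := by
  have h : D.b D.one * D.b D.one = D.b D.one := by rw [D.b_one, mul_one]
  have h1 := D.wt_co D.one D.one D.one (by rw [D.co_of_mul h]; exact one_ne_zero)
  have h2 : D.wt D.one + D.wt D.one = D.wt D.one + 0 := by rw [add_zero]; exact h1.symm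
  exact add_left_cancel h2

theorem eps_one (i : I) : D.eps i D.one = 0 := by
  have h := D.wt_E i D.one
  rw [D.wt_one] at h
  have h1 := DFunLike.congr_fun h i
  simp only [Finsupp.coe_zero, Pi.zero_apply, Finsupp.add_apply, Finsupp.single_eq_same] at h1
  omega

theorem E_one (i : I) : D.E i D.one = D.one := D.E_of_eps i _ (D.eps_one i)

theorem E_E (i : I) (X : S) : D.E i (D.E i X) = D.E i X := D.E_of_eps i _ (D.eps_E i X)

theorem rl_one : D.Rl D.one := ⟨D.one, by rw [D.b_one, mul_one]⟩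

theorem cm_one (X : S) : D.Cm X D.one := ⟨X, by rw [D.b_one, mul_one]⟩

theorem cm_one' (X : S) : D.Cm D.one X := ⟨X, by rw [D.b_one, one_mul]⟩

/-! ### positivity -/

/-- the sum of the coefficients -/
noncomputable def sg1 : O →ₗ[ℚ] ℚ := D.b.constr ℚ fun _ => (1 : ℚ)

theorem sg1_b (X : S) : D.sg1 (D.b X) = 1 := by
  rw [sg1, Module.Basis.constr_basis]

theorem sg1_mul (X Y : S) : D.sg1 (D.b X * D.b Y) = ((D.co X Y).sum fun _ n => n : ℕ) := by
  rw [D.b_mul, Finsupp.sum, map_sum, Finsupp.sum]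
  push_cast
  refine Finset.sum_congr rfl fun Z _ => ?_
  rw [map_smul, sg1_b, smul_eq_mul, mul_one]

variable [IsDomain O]

theorem exists_co (X Y : S) : ∃ Z, D.co X Y Z ≠ 0 := by
  by_contra h
  push Not at h
  have h1 : D.b X * D.b Y = 0 := by
    rw [D.b_mul]
    have : D.co X Y = 0 := Finsupp.ext h
    rw [this, Finsupp.sum_zero_index]
  rcases mul_eq_zero.1 h1 with h2 | h2
  · exact D.b.ne_zero X h2
  · exact D.b.ne_zero Y h2

theorem one_le_sum (X Y : S) : 1 ≤ ((D.co X Y).sum fun _ n => n) := by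
  obtain ⟨Z, hZ⟩ := D.exists_co X Y
  rw [Finsupp.sum]
  calc 1 ≤ D.co X Y Z := Nat.one_le_iff_ne_zero.2 hZ
    _ ≤ ∑ a ∈ (D.co X Y).support, D.co X Y a :=
      Finset.single_le_sum (f := fun a => D.co X Y a) (fun _ _ => Nat.zero_le _)
        (Finsupp.mem_support_iff.2 hZ)

/-- if `C ∘ (C' ∘ X)` is simple then `C' ∘ X` is simple -/
theorem cm_of_mul_mul {C C' X Z : S} (h : D.b C * (D.b C' * D.b X) = D.b Z) : D.Cm C' X := by
  classical
  have h1 : D.sg1 (D.b C * (D.b C' * D.b X)) = 1 := by rw [h, sg1_b]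
  rw [D.b_mul C' X, Finsupp.sum, Finset.mul_sum, map_sum] at h1
  have h2 : ∀ W ∈ (D.co C' X).support, (D.co C' X W : ℚ) ≤
      D.sg1 (D.b C * ((D.co C' X W : ℚ) • D.b W)) := by
    intro W _
    rw [mul_smul_comm, map_smul, sg1_mul, smul_eq_mul]
    have h3 := D.one_le_sum C W
    have h4 : (1 : ℚ) ≤ (((D.co C W).sum fun _ n => n : ℕ) : ℚ) := by exact_mod_cast h3
    nlinarith [Nat.cast_nonneg (α := ℚ) (D.co C' X W)]
  have h5 : (∑ W ∈ (D.co C' X).support, (D.co C' X W : ℚ)) ≤ 1 := by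
    rw [← h1]
    exact Finset.sum_le_sum h2
  have h6 : (∑ W ∈ (D.co C' X).support, D.co C' X W) ≤ 1 := by exact_mod_cast h5
  obtain ⟨Y, hY⟩ := D.exists_co C' X
  refine ⟨Y, ?_⟩
  have h7 : ∀ W ∈ (D.co C' X).support, W = Y := by
    intro W hW
    by_contra hne
    have hY' : Y ∈ (D.co C' X).support := Finsupp.mem_support_iff.2 hY
    have h8 : D.co C' X W + D.co C' X Y ≤ ∑ V ∈ (D.co C' X).support, D.co C' X V := by
      rw [← Finset.sum_pair hne]
      refine Finset.sum_le_sum_of_subset ?_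
      intro V hV
      rw [Finset.mem_insert, Finset.mem_singleton] at hV
      rcases hV with rfl | rfl
      · exact hW
      · exact hY'
    have h9 := Finsupp.mem_support_iff.1 hW
    omega
  have h10 : (D.co C' X).support = {Y} := by
    refine Finset.eq_singleton_iff_unique_mem.2 ⟨Finsupp.mem_support_iff.2 hY, h7⟩
  rw [D.b_mul, Finsupp.sum, h10, Finset.sum_singleton]
  rw [h10, Finset.sum_singleton] at h6
  have h11 : D.co C' X Y = 1 := by omega
  rw [h11, Nat.cast_one, one_smul]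

/-! ### `e_i^max` on the level of `O` -/

/-- `e_i^(a)` on modules with `ε_i ≤ a` -/
noncomputable def tau (i : I) (a : ℕ) : O →ₗ[ℚ] O :=
  open Classical in D.b.constr ℚ fun Y => if D.eps i Y = a then D.b (D.E i Y) else 0

omit [IsDomain O] in
theorem tau_b (i : I) (a : ℕ) (Y : S) :
    D.tau i a (D.b Y) = if D.eps i Y = a then D.b (D.E i Y) else 0 := by
  rw [tau, Module.Basis.constr_basis]

omit [IsDomain O] in
theorem tau_mul_b (i : I) (a a' : ℕ) {Y Y' : S} (h : D.eps i Y ≤ a) (h' : D.eps i Y' ≤ a') :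
    D.tau i (a + a') (D.b Y * D.b Y') = D.tau i a (D.b Y) * D.tau i a' (D.b Y') := by
  classical
  rw [D.b_mul, Finsupp.sum, map_sum, tau_b, tau_b]
  by_cases hh : D.eps i Y = a ∧ D.eps i Y' = a'
  · obtain ⟨h1, h2⟩ := hh
    rw [if_pos h1, if_pos h2, D.b_mul, Finsupp.sum]
    have h3 : ∀ Z ∈ (D.co Y Y').support, D.tau i (a + a') ((D.co Y Y' Z : ℚ) • D.b Z) =
        if D.eps i Z = a + a' then (D.co Y Y' Z : ℚ) • D.b (D.E i Z) else 0 := by
      intro Z _
      rw [map_smul, tau_b]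
      split_ifs
      · rfl
      · rw [smul_zero]
    rw [Finset.sum_congr rfl h3, ← Finset.sum_filter]
    refine Finset.sum_bij (fun Z _ => D.E i Z) ?_ ?_ ?_ ?_
    · intro Z hZ
      rw [Finset.mem_filter, Finsupp.mem_support_iff] at hZ
      rw [Finsupp.mem_support_iff, ← D.co_E i Y Y' Z (by rw [hZ.2, h1, h2])]
      exact hZ.1
    · intro Z hZ W hW hZW
      rw [Finset.mem_filter] at hZ hW
      exact D.eps_inj i Z W (hZ.2.trans hW.2.symm) hZW
    · intro W hW
      rw [Finsupp.mem_support_iff] at hW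
      have h4 : D.eps i W = 0 := by
        have h5 := D.eps_co i _ _ _ hW
        rw [D.eps_E, D.eps_E] at h5
        omega
      obtain ⟨Z, hZ1, hZ2⟩ := D.eps_surj i (a + a') W h4
      refine ⟨Z, ?_, hZ2⟩
      rw [Finset.mem_filter, Finsupp.mem_support_iff]
      refine ⟨?_, hZ1⟩
      rw [D.co_E i Y Y' Z (by rw [hZ1, h1, h2]), hZ2]
      exact hW
    · intro Z hZ
      rw [Finset.mem_filter] at hZ
      rw [D.co_E i Y Y' Z (by rw [hZ.2, h1, h2])]
  · have h1 : (if D.eps i Y = a then D.b (D.E i Y) else 0) *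
        (if D.eps i Y' = a' then D.b (D.E i Y') else 0) = 0 := by
      by_cases h2 : D.eps i Y = a
      · rw [if_neg (fun h3 => hh ⟨h2, h3⟩), mul_zero]
      · rw [if_neg h2, zero_mul]
    rw [h1]
    refine Finset.sum_eq_zero fun Z hZ => ?_
    rw [Finsupp.mem_support_iff] at hZ
    have h3 := D.eps_co i _ _ _ hZ
    rw [map_smul, tau_b, if_neg, smul_zero]
    intro h4
    exact hh ⟨by omega, by omega⟩

omit [IsDomain O] in
theorem tau_mul (i : I) (a a' : ℕ) {g g' : O} (h : g ∈ D.SS fun Y => D.eps i Y ≤ a)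
    (h' : g' ∈ D.SS fun Y => D.eps i Y ≤ a') :
    D.tau i (a + a') (g * g') = D.tau i a g * D.tau i a' g' := by
  refine Submodule.span_induction (p := fun g _ =>
    D.tau i (a + a') (g * g') = D.tau i a g * D.tau i a' g') ?_ ?_ ?_ ?_ h
  · rintro _ ⟨Y, hY, rfl⟩
    refine Submodule.span_induction (p := fun g' _ =>
      D.tau i (a + a') (D.b Y * g') = D.tau i a (D.b Y) * D.tau i a' g') ?_ ?_ ?_ ?_ h'
    · rintro _ ⟨Y', hY', rfl⟩
      exact D.tau_mul_b i a a' hY hY'
    · rw [mul_zero, map_zero, map_zero, mul_zero]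
    · intro x y _ _ hx hy
      rw [mul_add, map_add, map_add, mul_add, hx, hy]
    · intro c x _ hx
      rw [mul_smul_comm, map_smul, map_smul, mul_smul_comm, hx]
  · rw [zero_mul, map_zero, map_zero, zero_mul]
  · intro x y _ _ hx hy
    rw [add_mul, map_add, map_add, add_mul, hx, hy]
  · intro c x _ hx
    rw [smul_mul_assoc, map_smul, map_smul, smul_mul_assoc, hx]

theorem E_mul (i : I) {X Y Z : S} (h : D.b X * D.b Y = D.b Z) :
    D.eps i Z = D.eps i X + D.eps i Y ∧ D.b (D.E i X) * D.b (D.E i Y) = D.b (D.E i Z) := by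
  have h1 := D.tau_mul_b i (D.eps i X) (D.eps i Y) (le_refl (D.eps i X)) (le_refl (D.eps i Y))
  rw [h, tau_b, tau_b, tau_b, if_pos rfl, if_pos rfl] at h1
  by_cases h2 : D.eps i Z = D.eps i X + D.eps i Y
  · rw [if_pos h2] at h1
    exact ⟨h2, h1.symm⟩
  · exfalso
    rw [if_neg h2] at h1
    rcases mul_eq_zero.1 h1.symm with h3 | h3
    · exact D.b.ne_zero _ h3
    · exact D.b.ne_zero _ h3

theorem rl_E (i : I) {C : S} (hC : D.Rl C) : D.Rl (D.E i C) := by
  obtain ⟨Z, hZ⟩ := hC
  exact ⟨_, (D.E_mul i hZ).2⟩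

theorem cm_E (i : I) {C X : S} (h : D.Cm C X) : D.Cm (D.E i C) (D.E i X) := by
  obtain ⟨Z, hZ⟩ := h
  exact ⟨_, (D.E_mul i hZ).2⟩

/-! ### strings -/

/-- vectors for a word -/
abbrev V (w : List I) : Type := Fin w.length → ℚ

/-- first entry -/
def hd (i : I) (w : List I) : V (i :: w) →ₗ[ℚ] ℚ where
  toFun v := v (0 : Fin (w.length + 1))
  map_add' _ _ := rfl
  map_smul' _ _ := rfl

/-- the other entries -/
def tl (i : I) (w : List I) : V (i :: w) →ₗ[ℚ] V w where
  toFun v := fun k => v (Fin.succ k : Fin (w.length + 1))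
  map_add' _ _ := rfl
  map_smul' _ _ := rfl

/-- a vector from the first entry and the others -/
def cn (i : I) (w : List I) : ℚ × V w →ₗ[ℚ] V (i :: w) where
  toFun v := (Fin.cons v.1 v.2 : Fin (w.length + 1) → ℚ)
  map_add' x y := by
    funext k
    refine Fin.cases ?_ (fun k => ?_) (k : Fin (w.length + 1)) <;> rfl
  map_smul' c x := by
    funext k
    refine Fin.cases ?_ (fun k => ?_) (k : Fin (w.length + 1)) <;> rfl

omit [DecidableEq I] in
theorem hd_cn (i : I) (w : List I) (v : ℚ × V w) : hd i w (cn i w v) = v.1 := rfl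

omit [DecidableEq I] in
theorem tl_cn (i : I) (w : List I) (v : ℚ × V w) : tl i w (cn i w v) = v.2 := rfl

omit [DecidableEq I] in
theorem cn_hd_tl (i : I) (w : List I) (v : V (i :: w)) : cn i w (hd i w v, tl i w v) = v := by
  funext k
  refine Fin.cases ?_ (fun k => ?_) (k : Fin (w.length + 1)) <;> rfl

omit [DecidableEq I] in
theorem V_ext {i : I} {w : List I} {v v' : V (i :: w)} (h1 : hd i w v = hd i w v')
    (h2 : tl i w v = tl i w v') : v = v' := by
  rw [← cn_hd_tl i w v, ← cn_hd_tl i w v', h1, h2]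

/-- the string of `X` along the word -/
def str : (w : List I) → S → V w
  | [], _ => 0
  | i :: w, X => cn i w ((D.eps i X : ℚ), str w (D.E i X))

omit [IsDomain O] in
theorem hd_str (i : I) (w : List I) (X : S) : hd i w (D.str (i :: w) X) = D.eps i X := rfl

omit [IsDomain O] in
theorem tl_str (i : I) (w : List I) (X : S) : tl i w (D.str (i :: w) X) = D.str w (D.E i X) := rfl

omit [IsDomain O] in
theorem str_cons (i : I) (w : List I) (X : S) :
    D.str (i :: w) X = cn i w ((D.eps i X : ℚ), D.str w (D.E i X)) := rfl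

/-- adapted -/
def Ad (w : List I) (X : S) : Prop := AdP D.E D.one w X

omit [IsDomain O] in
theorem Ad_cons (i : I) (w : List I) (X : S) : D.Ad (i :: w) X ↔ D.Ad w (D.E i X) := Iff.rfl

omit [IsDomain O] in
theorem Ad_nil (X : S) : D.Ad [] X ↔ X = D.one := Iff.rfl

omit [IsDomain O] in
theorem Ad_one (w : List I) : D.Ad w D.one := by
  induction w with
  | nil => rfl
  | cons i w ih => rw [Ad_cons, E_one]; exact ih

omit [IsDomain O] in
theorem str_one (w : List I) : D.str w D.one = 0 := by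
  induction w with
  | nil => rfl
  | cons i w ih =>
    rw [str_cons, E_one, ih, eps_one, Nat.cast_zero]
    exact map_zero (cn i w)

omit [IsDomain O] in
theorem str_inj (w : List I) : ∀ {X Y : S}, D.Ad w X → D.Ad w Y → D.str w X = D.str w Y →
    X = Y := by
  induction w with
  | nil =>
    intro X Y hX hY _
    rw [Ad_nil] at hX hY
    rw [hX, hY]
  | cons i w ih =>
    intro X Y hX hY h
    have h1 : (D.eps i X : ℚ) = D.eps i Y := congrArg (hd i w) h
    have h2 : D.str w (D.E i X) = D.str w (D.E i Y) := congrArg (tl i w) h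
    exact D.eps_inj i X Y (by exact_mod_cast h1) (ih hX hY h2)

theorem str_mul (w : List I) : ∀ {X Y Z : S}, D.b X * D.b Y = D.b Z →
    D.str w Z = D.str w X + D.str w Y := by
  induction w with
  | nil => intro X Y Z _; exact (add_zero _).symm
  | cons i w ih =>
    intro X Y Z h
    obtain ⟨h1, h2⟩ := D.E_mul i h
    rw [str_cons, str_cons, str_cons, ih h2, h1, ← map_add, Nat.cast_add]
    rfl

theorem Ad_mul (w : List I) : ∀ {X Y Z : S}, D.Ad w X → D.Ad w Y → D.b X * D.b Y = D.b Z →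
    D.Ad w Z := by
  induction w with
  | nil =>
    intro X Y Z hX hY h
    rw [Ad_nil] at hX hY ⊢
    rw [hX, hY, D.b_one, mul_one, ← D.b_one] at h
    exact D.b_inj h.symm
  | cons i w ih =>
    intro X Y Z hX hY h
    exact ih hX hY (D.E_mul i h).2

omit [IsDomain O] in
/-- the leading constituent -/
theorem lead (w : List I) : ∀ {X Y : S}, D.Ad w X → D.Ad w Y →
    ∃ Z, D.Ad w Z ∧ D.str w Z = D.str w X + D.str w Y ∧ D.co X Y Z = 1 := by
  induction w with
  | nil =>
    intro X Y hX hY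
    rw [Ad_nil] at hX hY
    refine ⟨D.one, rfl, (add_zero _).symm, D.co_of_mul ?_⟩
    rw [hX, hY, D.b_one, mul_one]
  | cons i w ih =>
    intro X Y hX hY
    obtain ⟨Z', h1, h2, h3⟩ := ih hX hY
    have h4 : D.eps i Z' = 0 := by
      have h5 := D.eps_co i _ _ Z' (by rw [h3]; exact one_ne_zero)
      rw [D.eps_E, D.eps_E] at h5
      omega
    obtain ⟨Z, hZ1, hZ2⟩ := D.eps_surj i (D.eps i X + D.eps i Y) Z' h4
    refine ⟨Z, ?_, ?_, ?_⟩
    · rw [Ad_cons, hZ2]; exact h1
    · rw [str_cons, hZ2, h2, hZ1, str_cons, str_cons, ← map_add, Nat.cast_add]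
      rfl
    · rw [D.co_E i X Y Z hZ1, hZ2, h3]

omit [IsDomain O] in
/-- if all constituents are leading then the product is simple -/
theorem simple_of_lead (w : List I) {X Y : S} (hX : D.Ad w X) (hY : D.Ad w Y)
    (h : ∀ Z, D.co X Y Z ≠ 0 → D.Ad w Z ∧ D.str w Z = D.str w X + D.str w Y) :
    D.Cm X Y := by
  classical
  obtain ⟨Z, h1, h2, h3⟩ := D.lead w hX hY
  refine ⟨Z, D.b.repr.injective (Finsupp.ext fun W => ?_)⟩
  rw [repr_mul, Module.Basis.repr_self, Finsupp.single_apply]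
  by_cases hW : D.co X Y W = 0
  · rw [hW, if_neg, Nat.cast_zero]
    rintro rfl
    rw [h3] at hW
    exact one_ne_zero hW
  · obtain ⟨h4, h5⟩ := h W hW
    have h6 : Z = W := D.str_inj w h1 h4 (h2.trans h5.symm)
    rw [← h6, h3, if_pos rfl, Nat.cast_one]

end Sys

end Pool.Agent.KLSAbs
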