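import Mathlib

/-! MP_e487d8_al: the abstract interface between the representation theory of KLR algebras of
symmetric type and the combinatorial part of the proof (note 1963).

`S` is the set of simple modules up to isomorphism and grading shift, `O` the Grothendieck ring at
`q = 1` with rational coefficients. All facts about `Lam` and heads are only used for a REAL
module `C` as first argument. -/

set_option autoImplicit false

namespace Pool.Agent.KLSAbs

/-- the simple module `X` is adapted to the word `w`: taking away successively the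
maximal powers of the letters of `w` from `X` gives the trivial module -/
def AdP {I S : Type} (E : I → S → S) (one : S) : List I → S → Prop
  | [], X => X = one
  | i :: w, X => AdP E one w (E i X)

/-- the interface -/
structure Sys (I S O : Type) [DecidableEq I] [CommRing O] [Algebra ℚ O] where
  /-- the symmetric Cartan matrix `(α_i, α_j)` -/
  A : I → I → ℤ
  A_diag : ∀ i, A i i = 2
  /-- the classes of the simple modules -/
  b : Module.Basis S ℚ O
  /-- the multiplicities in the convolution product of two simple modules -/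
  co : S → S → S →₀ ℕ
  b_mul : ∀ X Y, b X * b Y = (co X Y).sum fun Z n => (n : ℚ) • b Z
  /-- the trivial module -/
  one : S
  b_one : b one = 1
  /-- the weight -/
  wt : S → I →₀ ℕ
  wt_co : ∀ X Y Z, co X Y Z ≠ 0 → wt Z = wt X + wt Y
  wt_zero : ∀ X, wt X = 0 → X = one
  /-- the degree `Λ(C, X)` of the R-matrix `C ∘ X → X ∘ C`, used for `C` real -/
  Lam : S → S → ℤ
  /-- the degree `Λ(X, C)` of the R-matrix `X ∘ C → C ∘ X`, used for `C` real -/
  Lam' : S → S → ℤ
  Lam_nonneg : ∀ C X, (∃ Z, b C * b C = b Z) → 0 ≤ Lam C X + Lam' C X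
  Lam_co : ∀ C X Y Z, (∃ Z, b C * b C = b Z) → co X Y Z ≠ 0 → Lam C Z ≤ Lam C X + Lam C Y
  Lam'_co : ∀ C X Y Z, (∃ Z, b C * b C = b Z) → co X Y Z ≠ 0 → Lam' C Z ≤ Lam' C X + Lam' C Y
  Lam_eq : ∀ C X Y Z, (∃ Z, b C * b C = b Z) → b X * b Y = b Z → Lam C Z = Lam C X + Lam C Y
  Lam'_eq : ∀ C X Y Z, (∃ Z, b C * b C = b Z) → b X * b Y = b Z → Lam' C Z = Lam' C X + Lam' C Y
  Lam_self : ∀ C, (∃ Z, b C * b C = b Z) → Lam C C = 0
  Lam'_self : ∀ C, (∃ Z, b C * b C = b Z) → Lam' C C = 0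
  Lam_one : ∀ X, Lam one X = 0
  Lam_comm : ∀ C Y Z, (∃ Z, b C * b C = b Z) → b C * b Y = b Z → Lam C Y + Lam' C Y = 0
  /-- the head of `C ∘ X`, used for `C` real -/
  nab : S → S → S
  /-- the head of `X ∘ C` (= socle of `C ∘ X`), used for `C` real -/
  nab' : S → S → S
  nab_spec : ∀ C X, (∃ Z, b C * b C = b Z) → co C X (nab C X) = 1 ∧ Lam C (nab C X) = Lam C X ∧
    ∀ Z, co C X Z ≠ 0 → Z ≠ nab C X → Lam C Z < Lam C X
  nab'_spec : ∀ C X, (∃ Z, b C * b C = b Z) → co C X (nab' C X) = 1 ∧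
    Lam' C (nab' C X) = Lam' C X ∧
    ∀ Z, co C X Z ≠ 0 → Z ≠ nab' C X → Lam' C Z < Lam' C X
  nab_simple : ∀ C X, (∃ Z, b C * b C = b Z) → nab C X = nab' C X → b C * b X = b (nab C X)
  nab_inj : ∀ C X Y, (∃ Z, b C * b C = b Z) → nab C X = nab C Y → X = Y
  nab'_inj : ∀ C X Y, (∃ Z, b C * b C = b Z) → nab' C X = nab' C Y → X = Y
  /-- Lemma H -/
  nab_real : ∀ C M Z, (∃ Y, b C * b C = b Y) → (∃ Y, b M * b M = b Y) →
    b C * b (nab C M) = b Z → ∃ Y, b (nab C M) * b (nab C M) = b Y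
  nab'_real : ∀ C M Z, (∃ Y, b C * b C = b Y) → (∃ Y, b M * b M = b Y) →
    b C * b (nab' C M) = b Z → ∃ Y, b (nab' C M) * b (nab' C M) = b Y
  /-- `ε_i` -/
  eps : I → S → ℕ
  /-- `e_i^max` -/
  E : I → S → S
  eps_E : ∀ i X, eps i (E i X) = 0
  E_of_eps : ∀ i X, eps i X = 0 → E i X = X
  eps_inj : ∀ i X Y, eps i X = eps i Y → E i X = E i Y → X = Y
  eps_surj : ∀ i a X, eps i X = 0 → ∃ Y, eps i Y = a ∧ E i Y = X
  wt_E : ∀ i X, wt X = wt (E i X) + Finsupp.single i (eps i X)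
  eps_co : ∀ i X Y Z, co X Y Z ≠ 0 → eps i Z ≤ eps i X + eps i Y
  co_E : ∀ i X Y Z, eps i Z = eps i X + eps i Y → co X Y Z = co (E i X) (E i Y) (E i Z)
  /-- the one dimensional module `L(i)` -/
  lt : I → S
  lt_real : ∀ i, ∃ Z, b (lt i) * b (lt i) = b Z
  /-- `C` real: the head of `L(i) ∘ C` -/
  nab'_lt : ∀ i C, (∃ Z, b C * b C = b Z) →
    eps i (nab' C (lt i)) = eps i C + 1 ∧ E i (nab' C (lt i)) = E i C
  /-- `C` real, `E_i C` and `X` commute: the head of `C ∘ X`, which is a quotient of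
  `L(i^a) ∘ E_i C ∘ X` -/
  nab_E : ∀ i C X Y, (∃ Z, b C * b C = b Z) → b (E i C) * b X = b Y →
    eps i (nab C X) = eps i C + eps i Y ∧ E i (nab C X) = E i Y
  /-- the sign in the formula for `Lam` -/
  sg : ℤ
  sg_ne : sg ≠ 0
  Lam_E : ∀ i C Y Z, (∃ Z, b C * b C = b Z) → b C * b Y = b Z →
    Lam C Y = Lam (E i C) (E i Y) +
      sg * ((eps i Y : ℤ) * ((wt (E i C)).sum fun j n => A i j * (n : ℤ)) -
        (eps i C : ℤ) * ((wt (E i Y)).sum fun j n => A i j * (n : ℤ)))
  /-- a simple module with a word `i_1^{a_1} ... i_m^{a_m}` is adapted -/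
  Ad_E : ∀ i w X, AdP E one w X → AdP E one w (E i X)

end Pool.Agent.KLSAbs
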