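import Pool.Agent.Work.MP_e487d8_al.Y.Abs.Fam

/-! MP_e487d8_al, abstract part: every maximal family has full rank. -/

set_option autoImplicit false

namespace Pool.Agent.KLSAbs

variable {I S O : Type} [DecidableEq I] [CommRing O] [Algebra ℚ O] {D : Sys I S O}

/-- additive maps on a functional additive relation extend to linear maps -/
theorem lin_ext {W W' : Type} [AddCommGroup W] [Module ℚ W] [AddCommGroup W'] [Module ℚ W']
    (T : AddSubmonoid (W × W')) (hT : ∀ x y y', (x, y) ∈ T → (x, y') ∈ T → y = y') :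
    ∃ e : W →ₗ[ℚ] W', ∀ x y, (x, y) ∈ T → e x = y := by
  set P := Submodule.span ℚ (T : Set (W × W')) with hP
  have hinj : Function.Injective ((LinearMap.fst ℚ W W').domRestrict P) := by
    rw [← LinearMap.ker_eq_bot, LinearMap.ker_eq_bot']
    rintro ⟨⟨x, y⟩, hxy⟩ h
    have hx : x = 0 := h
    subst hx
    obtain ⟨k, hk, ⟨a, c⟩, hac, ⟨a', c'⟩, hac', h1⟩ := span_nat T hxy
    have h2 : a = a' := by
      have := congrArg Prod.fst h1
      simpa using this
    have h3 : k • y + c = c' := congrArg Prod.snd h1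
    rw [← h2] at hac'
    have h4 := hT _ _ _ hac hac'
    rw [← h4] at h3
    have h5 : k • y = 0 := by simpa using h3
    have h6 : y = 0 := by
      rw [← Nat.cast_smul_eq_nsmul ℚ] at h5
      rcases smul_eq_zero.1 h5 with h6 | h6
      · exfalso
        have : k = 0 := by exact_mod_cast h6
        omega
      · exact h6
    subst h6
    rfl
  obtain ⟨g, hg⟩ := LinearMap.exists_leftInverse_of_injective _ (LinearMap.ker_eq_bot.2 hinj)
  refine ⟨(LinearMap.snd ℚ W W') ∘ₗ P.subtype ∘ₗ g, fun x y hxy => ?_⟩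
  have h1 := LinearMap.congr_fun hg ⟨(x, y), Submodule.subset_span hxy⟩
  have h2 : g x = ⟨(x, y), Submodule.subset_span hxy⟩ := h1
  show ((g x : P) : W × W').2 = y
  rw [h2]

/-- two injective additive maps have images of the same rank -/
theorem rank_eq {W W' : Type} [AddCommGroup W] [Module ℚ W] [AddCommGroup W'] [Module ℚ W']
    (T : AddSubmonoid (W × W')) (hT : ∀ x y y', (x, y) ∈ T → (x, y') ∈ T → y = y')
    (hT' : ∀ x x' y, (x, y) ∈ T → (x', y) ∈ T → x = x') :
    Module.finrank ℚ (Submodule.span ℚ {x | ∃ y, (x, y) ∈ T}) =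
      Module.finrank ℚ (Submodule.span ℚ {y | ∃ x, (x, y) ∈ T}) := by
  obtain ⟨e, he⟩ := lin_ext T hT
  obtain ⟨e', he'⟩ := lin_ext (T.map (AddMonoidHom.prod (AddMonoidHom.snd W W')
    (AddMonoidHom.fst W W'))) (by
      rintro x y y' ⟨⟨a, c⟩, h1, h2⟩ ⟨⟨a', c'⟩, h3, h4⟩
      have e1 : c = x := congrArg Prod.fst h2
      have e2 : a = y := congrArg Prod.snd h2
      have e3 : c' = x := congrArg Prod.fst h4
      have e4 : a' = y' := congrArg Prod.snd h4
      subst e1 e2 e4
      rw [e3] at h3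
      exact hT' _ _ _ h1 h3)
  have hm : ∀ x y, (x, y) ∈ T → e' y = x := fun x y h => he' y x ⟨(x, y), h, rfl⟩
  set P := Submodule.span ℚ {x | ∃ y, (x, y) ∈ T} with hP
  set Q := Submodule.span ℚ {y | ∃ x, (x, y) ∈ T} with hQ
  have h1 : ∀ x ∈ P, e x ∈ Q ∧ e' (e x) = x := by
    intro x hx
    refine Submodule.span_induction (p := fun x _ => e x ∈ Q ∧ e' (e x) = x) ?_ ?_ ?_ ?_ hx
    · rintro x ⟨y, hxy⟩
      rw [he x y hxy]
      exact ⟨Submodule.subset_span ⟨x, hxy⟩, hm x y hxy⟩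
    · rw [map_zero, map_zero]
      exact ⟨Submodule.zero_mem _, rfl⟩
    · rintro x y _ _ ⟨g1, g2⟩ ⟨g3, g4⟩
      rw [map_add, map_add, g2, g4]
      exact ⟨Submodule.add_mem _ g1 g3, rfl⟩
    · rintro c x _ ⟨g1, g2⟩
      rw [map_smul, map_smul, g2]
      exact ⟨Submodule.smul_mem _ _ g1, rfl⟩
  have h2 : ∀ y ∈ Q, e' y ∈ P ∧ e (e' y) = y := by
    intro y hy
    refine Submodule.span_induction (p := fun y _ => e' y ∈ P ∧ e (e' y) = y) ?_ ?_ ?_ ?_ hy
    · rintro y ⟨x, hxy⟩
      rw [hm x y hxy]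
      exact ⟨Submodule.subset_span ⟨y, hxy⟩, he x y hxy⟩
    · rw [map_zero, map_zero]
      exact ⟨Submodule.zero_mem _, rfl⟩
    · rintro x y _ _ ⟨g1, g2⟩ ⟨g3, g4⟩
      rw [map_add, map_add, g2, g4]
      exact ⟨Submodule.add_mem _ g1 g3, rfl⟩
    · rintro c x _ ⟨g1, g2⟩
      rw [map_smul, map_smul, g2]
      exact ⟨Submodule.smul_mem _ _ g1, rfl⟩
  refine LinearEquiv.finrank_eq (LinearEquiv.ofLinearMap
    (e.restrict (p := P) (q := Q) fun x hx => (h1 x hx).1)
    (e'.restrict (p := Q) (q := P) fun y hy => (h2 y hy).1) ?_ ?_)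
  · refine LinearMap.ext fun y => Subtype.ext ?_
    exact (h2 y.1 y.2).2
  · refine LinearMap.ext fun x => Subtype.ext ?_
    exact (h1 x.1 x.2).2

namespace Sys

variable [IsDomain O]

/-- an additive function on a family is a linear function of the string -/
theorem Fam.lin {w : List I} {N : Submonoid O} (hN : D.Fam w N) (i : I) :
    ∃ e : V w →ₗ[ℚ] ℚ, ∀ X, D.b X ∈ N → e (D.str w X) = D.eps i X := by
  obtain ⟨e, he⟩ := lin_ext (W := V w) (W' := ℚ)
    { carrier := {v | ∃ X, D.b X ∈ N ∧ (D.str w X, (D.eps i X : ℚ)) = v}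
      zero_mem' := ⟨D.one, hN.one_mem, by rw [D.str_one, D.eps_one]; simp⟩
      add_mem' := by
        rintro _ _ ⟨X, hX, rfl⟩ ⟨Y, hY, rfl⟩
        obtain ⟨Z, hZ⟩ := hN.cm hX hY
        refine ⟨Z, by rw [← hZ]; exact N.mul_mem hX hY, ?_⟩
        rw [D.str_mul w hZ, (D.E_mul i hZ).1, Nat.cast_add]; rfl } (by
      rintro x y y' ⟨X, hX, h1⟩ ⟨Y, hY, h2⟩
      have e1 : D.str w X = x := congrArg Prod.fst h1
      have e2 : (D.eps i X : ℚ) = y := congrArg Prod.snd h1
      have e3 : D.str w Y = x := congrArg Prod.fst h2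
      have e4 : (D.eps i Y : ℚ) = y' := congrArg Prod.snd h2
      have e5 := D.str_inj w (hN.ad hX) (hN.ad hY) (e1.trans e3.symm)
      rw [← e2, ← e4, e5])
  exact ⟨e, fun X hX => he _ _ ⟨X, hX, rfl⟩⟩

/-- the family `e_i^max N` -/
def shift (i : I) {w : List I} {N : Submonoid O} (hN : D.Fam (i :: w) N) : Submonoid O where
  carrier := {x | ∃ C, D.b C ∈ N ∧ D.b (D.E i C) = x}
  one_mem' := ⟨D.one, hN.one_mem, by rw [D.E_one, D.b_one]⟩
  mul_mem' := by
    rintro _ _ ⟨X, hX, rfl⟩ ⟨Y, hY, rfl⟩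
    obtain ⟨Z, hZ⟩ := hN.cm hX hY
    exact ⟨Z, by rw [← hZ]; exact N.mul_mem hX hY, (D.E_mul i hZ).2.symm⟩

theorem shift_fam (i : I) {w : List I} {N : Submonoid O} (hN : D.Fam (i :: w) N) :
    D.Fam w (shift i hN) := ⟨fun _ ⟨C, h1, h2⟩ => ⟨D.E i C, h2, hN.ad h1⟩⟩

theorem mem_shift (i : I) {w : List I} {N : Submonoid O} (hN : D.Fam (i :: w) N) {X : S} :
    D.b X ∈ shift i hN ↔ ∃ C, D.b C ∈ N ∧ D.E i C = X :=
  ⟨fun ⟨C, h1, h2⟩ => ⟨C, h1, D.b_inj h2⟩, fun ⟨C, h1, h2⟩ => ⟨C, h1, by rw [h2]⟩⟩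

theorem eps_shift (i : I) {w : List I} {N : Submonoid O} (hN : D.Fam (i :: w) N) {X : S}
    (hX : D.b X ∈ shift i hN) : D.eps i X = 0 := by
  obtain ⟨C, _, rfl⟩ := (mem_shift i hN).1 hX
  exact D.eps_E i C

theorem sp_shift (i : I) {w : List I} {N : Submonoid O} (hN : D.Fam (i :: w) N) :
    D.sp w (shift i hN) = (D.sp (i :: w) N).map (tl i w) := by
  rw [sp, sp, Submodule.map_span]
  congr 1
  ext v
  constructor
  · rintro ⟨X, hX, rfl⟩
    obtain ⟨C, hC, rfl⟩ := (mem_shift i hN).1 hX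
    exact ⟨D.str (i :: w) C, ⟨C, hC, rfl⟩, rfl⟩
  · rintro ⟨_, ⟨C, hC, rfl⟩, rfl⟩
    exact ⟨D.E i C, (mem_shift i hN).2 ⟨C, hC, rfl⟩, rfl⟩

/-- a large power of a generic element: all constituents of the product with `g` commute with
the family -/
theorem exists_pow {w : List I} {N : Submonoid O} (hN : D.Fam w N) (g : O) :
    ∃ C, D.b C ∈ N ∧ D.b C * g ∈ D.SS fun X => ∀ C, D.b C ∈ N → D.Cm C X := by
  obtain ⟨f, hf, hgen⟩ := exists_gen hN
  obtain ⟨n, hn⟩ := D.ev_cm (hN.rl hf) g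
  obtain ⟨C, hC, _⟩ := hN.spl _ (N.pow_mem hf n)
  refine ⟨C, by rw [hC]; exact N.pow_mem hf n, ?_⟩
  rw [hC]
  exact D.SS_mono (fun X hX => hgen X hX) (hn n (le_refl n))

/-- (F) -/
theorem lemF {w : List I} {N : Submonoid O} (hN : D.Fam w N) {Y : S} (hY : D.Ad w Y) :
    ∃ C X, D.b C ∈ N ∧ D.CC w N X ∧ D.str w X = D.str w C + D.str w Y ∧ D.co C Y X ≠ 0 := by
  obtain ⟨C, hC, h⟩ := exists_pow hN (D.b Y)
  obtain ⟨X, h1, h2, h3⟩ := D.lead w (hN.ad hC) hY
  refine ⟨C, X, hC, ⟨h1, ?_⟩, h2, by rw [h3]; exact one_ne_zero⟩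
  rw [mem_SS] at h
  exact h X (by rw [repr_mul, h3]; simp)

/-- adding `f~_i` of a large power -/
theorem key1 {i : I} {w : List I} {N : Submonoid O} (hN : D.Fam (i :: w) N) :
    ∃ C X, D.b C ∈ N ∧ D.Rl X ∧ D.CC (i :: w) N X ∧
      D.str (i :: w) X = D.str (i :: w) C + cn i w (1, 0) := by
  obtain ⟨C, hC, h⟩ := exists_pow hN (D.b (D.lt i))
  have hR := hN.rl hC
  obtain ⟨g1, g2⟩ := D.nab'_lt i C hR
  obtain ⟨g3, _, _⟩ := D.nab'_spec C (D.lt i) hR
  have hcm : ∀ C', D.b C' ∈ N → D.Cm C' (D.nab' C (D.lt i)) := by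
    rw [mem_SS] at h
    exact h _ (by rw [repr_mul, g3]; simp)
  refine ⟨C, D.nab' C (D.lt i), hC, ?_, ⟨?_, hcm⟩, ?_⟩
  · obtain ⟨Z, hZ⟩ := hcm C hC
    exact D.nab'_real C (D.lt i) Z hR (D.lt_real i) hZ
  · rw [Ad_cons, g2]
    exact hN.ad hC
  · rw [str_cons, str_cons, g1, g2, ← map_add]
    congr 1
    rw [Prod.mk_add_mk, add_zero]
    push_cast
    rfl

/-- `f^N ∇ X'` -/
theorem key2 {i : I} {w : List I} {N : Submonoid O} (hN : D.Fam (i :: w) N) {X' : S}
    (hR' : D.Rl X') (hA : D.Ad w X') (hcm' : ∀ C, D.b C ∈ N → D.Cm (D.E i C) X') :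
    ∃ C X, D.b C ∈ N ∧ D.Rl X ∧ D.CC (i :: w) N X ∧
      D.str (i :: w) X = D.str (i :: w) C + D.str (i :: w) X' := by
  obtain ⟨C, hC, h⟩ := exists_pow hN (D.b X')
  have hR := hN.rl hC
  obtain ⟨Y, hY⟩ := hcm' C hC
  obtain ⟨g1, g2⟩ := D.nab_E i C X' Y hR hY
  obtain ⟨g3, _, _⟩ := D.nab_spec C X' hR
  have hcm : ∀ C', D.b C' ∈ N → D.Cm C' (D.nab C X') := by
    rw [mem_SS] at h
    exact h _ (by rw [repr_mul, g3]; simp)
  refine ⟨C, D.nab C X', hC, ?_, ⟨?_, hcm⟩, ?_⟩
  · obtain ⟨Z, hZ⟩ := hcm C hC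
    exact D.nab_real C X' Z hR hR' hZ
  · rw [Ad_cons, g2]
    exact D.Ad_E i w Y (D.Ad_mul w (hN.ad hC) hA hY)
  · obtain ⟨h1, h2⟩ := D.E_mul i hY
    rw [D.eps_E, zero_add] at h1
    rw [D.E_E] at h2
    rw [str_cons, str_cons, str_cons, g1, g2, h1, D.str_mul w h2, ← map_add, Nat.cast_add]
    rfl

/-- a functional which vanishes on the kernel of another one -/
theorem ker_le_aux {W : Type} [AddCommGroup W] [Module ℚ W] {l e : W →ₗ[ℚ] ℚ}
    (h : ∀ v, l v = 0 → e v = 0) {x : W} (hx : l x ≠ 0) (v : W) : e v = (e x / l x) * l v := by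
  have h1 := h (v - (l v / l x) • x) (by
    rw [map_sub, map_smul, smul_eq_mul, div_mul_cancel₀ _ hx, sub_self])
  rw [map_sub, map_smul, smul_eq_mul] at h1
  have h2 : e v = l v / l x * e x := by linarith
  rw [h2]; ring

/-- `T_i` -/
theorem stepT : ∀ (w : List I) (N : Submonoid O), D.Fam w N → ∀ l : V w →ₗ[ℚ] ℚ,
    D.sp w N = LinearMap.ker l → ∀ Y, D.Ad w Y → 0 < l (D.str w Y) →
    ∃ X, D.Rl X ∧ D.CC w N X ∧ 0 < l (D.str w X) := by
  intro w
  induction w with
  | nil =>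
    intro N hN l hl Y hY hpos
    exfalso
    have : D.str [] Y = 0 := rfl
    rw [this, map_zero] at hpos
    exact lt_irrefl _ hpos
  | cons i w ih =>
    intro N hN l hl Y hY hpos
    have hlN : ∀ C, D.b C ∈ N → l (D.str (i :: w) C) = 0 := by
      intro C hC
      have : D.str (i :: w) C ∈ D.sp (i :: w) N := Submodule.subset_span ⟨C, hC, rfl⟩
      rw [hl] at this
      exact this
    set l' : V w →ₗ[ℚ] ℚ := l ∘ₗ cn i w ∘ₗ LinearMap.inr ℚ ℚ (V w) with hl'
    set a : ℚ := l (cn i w (1, 0)) with ha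
    have hdec : ∀ v : V (i :: w), l v = hd i w v * a + l' (tl i w v) := by
      intro v
      conv_lhs => rw [← cn_hd_tl i w v]
      rw [ha, hl']
      simp only [LinearMap.comp_apply, LinearMap.inr_apply]
      rw [← smul_eq_mul, ← map_smul, ← map_add, ← map_smul, ← map_add]
      congr 2
      simp
    have hlY : 0 < (D.eps i Y : ℚ) * a + l' (D.str w (D.E i Y)) := by
      rw [hdec] at hpos
      exact hpos
    rcases lt_trichotomy a 0 with h0 | h0 | h0
    · -- `ℓ(e₁) < 0`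
      have hfull : D.sp w (shift i hN) = ⊤ := by
        rw [sp_shift, hl, Submodule.eq_top_iff']
        intro v
        refine ⟨cn i w (-(l' v) / a, v), ?_, rfl⟩
        show l _ = 0
        rw [hdec, hd_cn, tl_cn]
        show -(l' v) / a * a + l' v = 0
        rw [div_mul_cancel₀ _ h0.ne]
        ring
      have hS := shift_fam i hN
      obtain ⟨C', X', hC', hX', hstr, _⟩ := lemF hS hY
      have hcent := cent_fam hS hfull
      have hX'c : D.b X' ∈ cent hS hfull := (mem_cent hS hfull).2 hX'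
      have heps : D.eps i X' = 0 := by
        obtain ⟨e, he⟩ := hcent.lin i
        have h1 : e = 0 := by
          refine LinearMap.ext_on (s := {v | ∃ X, D.b X ∈ shift i hN ∧ D.str w X = v}) hfull ?_
          rintro _ ⟨Z, hZ, rfl⟩
          rw [he Z (le_cent hS hfull hZ), eps_shift i hN hZ]
          simp
        have h2 := he X' hX'c
        rw [h1, LinearMap.zero_apply] at h2
        exact_mod_cast h2.symm
      obtain ⟨C, X, hC, hRX, hX, hs⟩ := key2 hN (hcent.rl hX'c) hX'.1 (fun C hC =>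
        hX'.2 (D.E i C) ((mem_shift i hN).2 ⟨C, hC, rfl⟩))
      refine ⟨X, hRX, hX, ?_⟩
      rw [hs, map_add, hlN C hC, zero_add, hdec, hd_str, tl_str, heps, D.E_of_eps i X' heps, hstr,
        map_add]
      obtain ⟨C₀, hC₀, rfl⟩ := (mem_shift i hN).1 hC'
      have h3 := hlN C₀ hC₀
      rw [hdec, hd_str, tl_str] at h3
      have h4 : 0 ≤ (D.eps i C₀ : ℚ) := Nat.cast_nonneg _
      have h5 : 0 ≤ (D.eps i Y : ℚ) := Nat.cast_nonneg _
      rw [Nat.cast_zero, zero_mul, zero_add]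
      nlinarith [mul_nonneg h4 (neg_nonneg.2 h0.le), mul_nonneg h5 (neg_nonneg.2 h0.le)]
    · -- `ℓ(e₁) = 0`
      rw [h0, mul_zero, zero_add] at hlY
      have hS := shift_fam i hN
      have hsp : D.sp w (shift i hN) = LinearMap.ker l' := by
        rw [sp_shift, hl]
        ext v
        rw [Submodule.mem_map, LinearMap.mem_ker]
        constructor
        · rintro ⟨u, hu, rfl⟩
          rw [LinearMap.mem_ker, hdec, h0, mul_zero, zero_add] at hu
          exact hu
        · intro hv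
          refine ⟨cn i w (0, v), ?_, rfl⟩
          rw [LinearMap.mem_ker, hdec, hd_cn, tl_cn]
          show 0 * a + l' v = 0
          rw [hv, zero_mul, add_zero]
      obtain ⟨X₁, hR₁, hX₁, hpos₁⟩ := ih (shift i hN) hS l' hsp (D.E i Y) hY hlY
      have hM := ext_fam hS hR₁ hX₁
      set M := shift i hN ⊔ Submonoid.powers (D.b X₁) with hMdef
      have hSM : shift i hN ≤ M := le_sup_left
      have hX₁M : D.b X₁ ∈ M :=
        (le_sup_right : Submonoid.powers (D.b X₁) ≤ M) (Submonoid.mem_powers _)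
      have hfull : D.sp w M = ⊤ := by
        rw [Submodule.eq_top_iff']
        intro v
        have h1 : v - (l' v / l' (D.str w X₁)) • D.str w X₁ ∈ D.sp w M := by
          have h2 : D.sp w (shift i hN) ≤ D.sp w M :=
            Submodule.span_mono fun _ ⟨X, hX, h⟩ => ⟨X, hSM hX, h⟩
          refine h2 ?_
          rw [hsp, LinearMap.mem_ker, map_sub, map_smul, smul_eq_mul,
            div_mul_cancel₀ _ hpos₁.ne', sub_self]
        have h2 : D.str w X₁ ∈ D.sp w M := Submodule.subset_span ⟨X₁, hX₁M, rfl⟩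
        have h3 := Submodule.add_mem _ h1
          (Submodule.smul_mem (D.sp w M) (l' v / l' (D.str w X₁)) h2)
        rwa [sub_add_cancel] at h3
      obtain ⟨C', X', hC', hX', hstr, hco⟩ := lemF hM hY
      have hcent := cent_fam hM hfull
      have hX'c : D.b X' ∈ cent hM hfull := (mem_cent hM hfull).2 hX'
      obtain ⟨e, he⟩ := hcent.lin i
      have hker : ∀ v, l' v = 0 → e v = 0 := by
        intro v hv
        have h1 : v ∈ D.sp w (shift i hN) := by rw [hsp]; exact hv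
        refine Submodule.span_induction (p := fun v _ => e v = 0) ?_ ?_ ?_ ?_ h1
        · rintro _ ⟨Z, hZ, rfl⟩
          rw [he Z (le_cent hM hfull (hSM hZ)), eps_shift i hN hZ, Nat.cast_zero]
        · exact map_zero e
        · intro x y _ _ hx hy
          rw [map_add, hx, hy, add_zero]
        · intro c x _ hx
          rw [map_smul, hx, smul_zero]
      have heps : D.eps i X₁ = 0 := by
        have h1 := he X' hX'c
        have h2 := he C' (le_cent hM hfull hC')
        have h3 := he X₁ (le_cent hM hfull hX₁M)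
        have h4 : (D.eps i X' : ℚ) ≤ D.eps i C' := by
          have h5 := D.eps_co i _ _ _ hco
          rw [D.eps_E, add_zero] at h5
          exact_mod_cast h5
        rw [← h1, ← h2, hstr, map_add] at h4
        rw [ker_le_aux hker hpos₁.ne' (D.str w (D.E i Y)), h3] at h4
        have h5 : 0 ≤ (D.eps i X₁ : ℚ) := Nat.cast_nonneg _
        have h6 : (D.eps i X₁ : ℚ) / l' (D.str w X₁) * l' (D.str w (D.E i Y)) ≤ 0 := by linarith
        have h7 : (D.eps i X₁ : ℚ) ≤ 0 := by
          by_contra h8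
          push Not at h8
          have h9 : 0 < (D.eps i X₁ : ℚ) / l' (D.str w X₁) * l' (D.str w (D.E i Y)) :=
            mul_pos (div_pos h8 hpos₁) hlY
          linarith
        have h8 : (D.eps i X₁ : ℚ) = 0 := le_antisymm h7 h5
        exact_mod_cast h8
      obtain ⟨C, X, hC, hRX, hX, hs⟩ := key2 hN hR₁ hX₁.1 (fun C hC =>
        hX₁.2 (D.E i C) ((mem_shift i hN).2 ⟨C, hC, rfl⟩))
      refine ⟨X, hRX, hX, ?_⟩
      rw [hs, map_add, hlN C hC, zero_add, hdec, hd_str, tl_str, heps, D.E_of_eps i X₁ heps,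
        h0, mul_zero, zero_add]
      exact hpos₁
    · -- `ℓ(e₁) > 0`
      obtain ⟨C, X, hC, hRX, hX, hs⟩ := key1 hN
      refine ⟨X, hRX, hX, ?_⟩
      rw [hs, map_add, hlN C hC, zero_add]
      exact h0

/-- maximal families -/
def Mx (D : Sys I S O) (w : List I) (N : Submonoid O) : Prop :=
  D.Fam w N ∧ ∀ N', D.Fam w N' → N ≤ N' → N' = N

theorem Mx.mem {w : List I} {N : Submonoid O} (hN : Mx D w N) {X : S} (hR : D.Rl X)
    (hX : D.CC w N X) : D.b X ∈ N := by
  have h := hN.2 _ (ext_fam hN.1 hR hX) le_sup_left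
  rw [← h]
  exact (le_sup_right : Submonoid.powers (D.b X) ≤ _) (Submonoid.mem_powers _)

omit [IsDomain O] in
theorem exists_mx {w : List I} {N : Submonoid O} (hN : D.Fam w N) :
    ∃ M, N ≤ M ∧ Mx D w M := by
  obtain ⟨M, h1, h2⟩ := zorn_le_nonempty₀ {N : Submonoid O | D.Fam w N} (by
    intro c hc hch y hy
    refine ⟨sSup c, ⟨fun x hx => ?_⟩, fun z hz => le_sSup hz⟩
    rw [Submonoid.mem_sSup_of_directedOn ⟨y, hy⟩ hch.directedOn] at hx
    obtain ⟨z, hz, hx⟩ := hx
    exact (hc hz).spl x hx) N hN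
  exact ⟨M, h1, h2.1, fun N' hN' hle => le_antisymm (h2.2 hN' hle) hle⟩

/-- `R_i` -/
theorem stepR : ∀ (w : List I),
    (∀ j, j <:+ w → Submodule.span ℚ {v | ∃ X, D.Ad j X ∧ D.str j X = v} = ⊤) →
    ∀ N, Mx D w N → D.sp w N = ⊤ := by
  intro w
  induction w with
  | nil =>
    intro _ N hN
    rw [Submodule.eq_top_iff']
    intro v
    have : v = 0 := funext fun k => Fin.elim0 (k : Fin 0)
    rw [this]
    exact Submodule.zero_mem _
  | cons i w ih =>
    intro hspan N hN
    have ihw := ih (fun j hj => hspan j (hj.trans (List.suffix_cons i w)))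
    have hS := shift_fam i hN.1
    obtain ⟨M, hNM, hM⟩ := exists_mx hS
    have hfull := ihw M hM
    -- strings of `M` along `i :: w` lie in the span of `N`
    have h1 : ∀ X', D.b X' ∈ M → D.str (i :: w) X' ∈ D.sp (i :: w) N := by
      intro X' hX'
      obtain ⟨C, X, hC, hR, hX, hs⟩ := key2 hN.1 (hM.1.rl hX') (hM.1.ad hX') (fun C hC =>
        hM.1.cm (hNM ((mem_shift i hN.1).2 ⟨C, hC, rfl⟩)) hX')
      have h2 : D.b X ∈ N := hN.mem hR hX
      have h3 : D.str (i :: w) X ∈ D.sp (i :: w) N := Submodule.subset_span ⟨X, h2, rfl⟩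
      have h4 : D.str (i :: w) C ∈ D.sp (i :: w) N := Submodule.subset_span ⟨C, hC, rfl⟩
      have h5 := Submodule.sub_mem _ h3 h4
      rw [hs, add_sub_cancel_left] at h5
      exact h5
    have hM' : D.Fam (i :: w) M := ⟨fun x hx => by
      obtain ⟨X, rfl, hX⟩ := hM.1.spl x hx
      exact ⟨X, rfl, D.Ad_E i w X hX⟩⟩
    have hrank : Module.finrank ℚ (D.sp w M) = Module.finrank ℚ (D.sp (i :: w) M) := by
      have h2 := rank_eq (W := V w) (W' := V (i :: w))
        { carrier := {v | ∃ X, D.b X ∈ M ∧ (D.str w X, D.str (i :: w) X) = v}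
          zero_mem' := ⟨D.one, hM.1.one_mem, by rw [D.str_one, D.str_one]; rfl⟩
          add_mem' := by
            rintro _ _ ⟨X, hX, rfl⟩ ⟨Y, hY, rfl⟩
            obtain ⟨Z, hZ⟩ := hM.1.cm hX hY
            refine ⟨Z, by rw [← hZ]; exact M.mul_mem hX hY, ?_⟩
            rw [D.str_mul w hZ, D.str_mul (i :: w) hZ]; rfl } (by
          rintro x y y' ⟨X, hX, h1⟩ ⟨Y, hY, h2⟩
          have e1 : D.str w X = x := congrArg Prod.fst h1
          have e2 : D.str (i :: w) X = y := congrArg Prod.snd h1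
          have e3 : D.str w Y = x := congrArg Prod.fst h2
          have e4 : D.str (i :: w) Y = y' := congrArg Prod.snd h2
          have e5 := D.str_inj w (hM.1.ad hX) (hM.1.ad hY) (e1.trans e3.symm)
          rw [← e2, ← e4, e5]) (by
          rintro x x' y ⟨X, hX, h1⟩ ⟨Y, hY, h2⟩
          have e1 : D.str w X = x := congrArg Prod.fst h1
          have e2 : D.str (i :: w) X = y := congrArg Prod.snd h1
          have e3 : D.str w Y = x' := congrArg Prod.fst h2
          have e4 : D.str (i :: w) Y = y := congrArg Prod.snd h2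
          have e5 := D.str_inj (i :: w) (hM'.ad hX) (hM'.ad hY) (e2.trans e4.symm)
          rw [← e1, ← e3, e5])
      have e1 : D.sp w M = Submodule.span ℚ {x : V w | ∃ y : V (i :: w), ∃ X, D.b X ∈ M ∧
          (D.str w X, D.str (i :: w) X) = (x, y)} := by
        rw [sp]
        congr 1
        ext v
        constructor
        · rintro ⟨X, hX, rfl⟩
          exact ⟨_, X, hX, rfl⟩
        · rintro ⟨y, X, hX, h⟩
          exact ⟨X, hX, congrArg Prod.fst h⟩
      have e2 : D.sp (i :: w) M = Submodule.span ℚ {y : V (i :: w) | ∃ x : V w, ∃ X, D.b X ∈ M ∧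
          (D.str w X, D.str (i :: w) X) = (x, y)} := by
        rw [sp]
        congr 1
        ext v
        constructor
        · rintro ⟨X, hX, rfl⟩
          exact ⟨_, X, hX, rfl⟩
        · rintro ⟨y, X, hX, h⟩
          exact ⟨X, hX, congrArg Prod.snd h⟩
      rw [e1, e2]
      exact h2
    have hle : D.sp (i :: w) M ≤ D.sp (i :: w) N := by
      rw [sp, Submodule.span_le]
      rintro _ ⟨X, hX, rfl⟩
      exact h1 X hX
    have hdim : w.length ≤ Module.finrank ℚ (D.sp (i :: w) N) := by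
      calc w.length = Module.finrank ℚ (D.sp w M) := by
            rw [hfull, finrank_top, Module.finrank_fin_fun]
        _ = Module.finrank ℚ (D.sp (i :: w) M) := hrank
        _ ≤ Module.finrank ℚ (D.sp (i :: w) N) := Submodule.finrank_mono hle
    by_contra hne
    obtain ⟨l, hl0, hl⟩ := Submodule.exists_le_ker_of_lt_top _ (lt_top_iff_ne_top.2 hne)
    have hker : D.sp (i :: w) N = LinearMap.ker l := by
      refine Submodule.eq_of_le_of_finrank_le hl ?_
      have h2 := LinearMap.finrank_range_add_finrank_ker l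
      have h3 : Module.finrank ℚ (V (i :: w)) = w.length + 1 := by
        rw [Module.finrank_fin_fun]; rfl
      have h4 : 0 < Module.finrank ℚ (LinearMap.range l) := by
        rw [Module.finrank_pos_iff, Submodule.nontrivial_iff_ne_bot]
        rwa [Ne, LinearMap.range_eq_bot]
      omega
    -- a point off the hyperplane
    have hpt : ∃ Y, D.Ad (i :: w) Y ∧ l (D.str (i :: w) Y) ≠ 0 := by
      by_contra hno
      push Not at hno
      apply hl0
      refine LinearMap.ext_on (s := {v | ∃ X, D.Ad (i :: w) X ∧ D.str (i :: w) X = v})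
        (hspan _ List.suffix_rfl) ?_
      rintro _ ⟨X, hX, rfl⟩
      exact hno X hX
    obtain ⟨Y, hY, hlY⟩ := hpt
    have hmain : ∀ l : V (i :: w) →ₗ[ℚ] ℚ, D.sp (i :: w) N = LinearMap.ker l →
        0 < l (D.str (i :: w) Y) → False := by
      intro l hl hpos
      obtain ⟨X, hR, hX, hpX⟩ := stepT (i :: w) N hN.1 l hl Y hY hpos
      have h2 : D.b X ∈ N := hN.mem hR hX
      have h3 : D.str (i :: w) X ∈ D.sp (i :: w) N := Submodule.subset_span ⟨X, h2, rfl⟩
      rw [hl, LinearMap.mem_ker] at h3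
      rw [h3] at hpX
      exact lt_irrefl _ hpX
    rcases lt_or_gt_of_ne hlY with h2 | h2
    · refine hmain (-l) ?_ (by rw [LinearMap.neg_apply]; linarith)
      rw [hker]
      ext v
      rw [LinearMap.mem_ker, LinearMap.mem_ker, LinearMap.neg_apply, neg_eq_zero]
    · exact hmain l hker h2

end Sys

end Pool.Agent.KLSAbs
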